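import Mathlib

/-!
Definability in the ring language: closure properties.
-/

open FirstOrder FirstOrder.Language FirstOrder.Ring

namespace Pool.Agent.Helper632.Adm

section

variable {R : Type} [CommRing R] [CompatibleRing R]

/-- polynomial term functions of countably many variables -/
def IsT (t : (ℕ → R) → R) : Prop :=
  ∃ τ : Language.ring.Term ℕ, ∀ v : ℕ → R, τ.realize v = t v

/-- definable predicates of countably many variables -/
def Df (P : (ℕ → R) → Prop) : Prop :=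
  ∃ φ : Language.ring.Formula ℕ, ∀ v : ℕ → R, φ.Realize v ↔ P v

theorem IsT.var (i : ℕ) : IsT (fun v : ℕ → R => v i) := ⟨Term.var i, fun v => rfl⟩

theorem IsT.zero : IsT (fun _ : ℕ → R => (0 : R)) := ⟨0, fun v => by simp⟩

theorem IsT.one : IsT (fun _ : ℕ → R => (1 : R)) := ⟨1, fun v => by simp⟩

theorem IsT.add {s t : (ℕ → R) → R} (hs : IsT s) (ht : IsT t) : IsT (fun v => s v + t v) := by
  obtain ⟨σ, hσ⟩ := hs
  obtain ⟨τ, hτ⟩ := ht
  exact ⟨σ + τ, fun v => by simp [hσ, hτ]⟩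

theorem IsT.mul {s t : (ℕ → R) → R} (hs : IsT s) (ht : IsT t) : IsT (fun v => s v * t v) := by
  obtain ⟨σ, hσ⟩ := hs
  obtain ⟨τ, hτ⟩ := ht
  exact ⟨σ * τ, fun v => by simp [hσ, hτ]⟩

theorem IsT.neg {s : (ℕ → R) → R} (hs : IsT s) : IsT (fun v => - s v) := by
  obtain ⟨σ, hσ⟩ := hs
  exact ⟨-σ, fun v => by simp [hσ]⟩

theorem IsT.sub {s t : (ℕ → R) → R} (hs : IsT s) (ht : IsT t) : IsT (fun v => s v - t v) := by
  simp only [sub_eq_add_neg]
  exact hs.add ht.neg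

theorem IsT.two : IsT (fun _ : ℕ → R => (2 : R)) := by
  have h := (IsT.one (R := R)).add IsT.one
  simpa [one_add_one_eq_two] using h

theorem IsT.shift {t : (ℕ → R) → R} (ht : IsT t) : IsT (fun v => t (fun n => v (n + 1))) := by
  obtain ⟨τ, hτ⟩ := ht
  refine ⟨τ.relabel Nat.succ, fun v => ?_⟩
  rw [Term.realize_relabel, hτ]
  rfl

theorem Df.eq {s t : (ℕ → R) → R} (hs : IsT s) (ht : IsT t) : Df (fun v => s v = t v) := by
  obtain ⟨σ, hσ⟩ := hs
  obtain ⟨τ, hτ⟩ := ht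
  exact ⟨Term.equal σ τ, fun v => by rw [Formula.realize_equal, hσ, hτ]⟩

theorem Df.not {P : (ℕ → R) → Prop} (h : Df P) : Df (fun v => ¬ P v) := by
  obtain ⟨φ, hφ⟩ := h
  exact ⟨φ.not, fun v => by rw [Formula.realize_not, hφ]⟩

theorem Df.and {P Q : (ℕ → R) → Prop} (h : Df P) (h' : Df Q) : Df (fun v => P v ∧ Q v) := by
  obtain ⟨φ, hφ⟩ := h
  obtain ⟨ψ, hψ⟩ := h'
  exact ⟨φ ⊓ ψ, fun v => by rw [Formula.realize_inf, hφ, hψ]⟩

theorem Df.or {P Q : (ℕ → R) → Prop} (h : Df P) (h' : Df Q) : Df (fun v => P v ∨ Q v) := by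
  obtain ⟨φ, hφ⟩ := h
  obtain ⟨ψ, hψ⟩ := h'
  exact ⟨φ ⊔ ψ, fun v => by rw [Formula.realize_sup, hφ, hψ]⟩

theorem Df.imp {P Q : (ℕ → R) → Prop} (h : Df P) (h' : Df Q) : Df (fun v => P v → Q v) := by
  obtain ⟨φ, hφ⟩ := h
  obtain ⟨ψ, hψ⟩ := h'
  exact ⟨φ.imp ψ, fun v => by rw [Formula.realize_imp, hφ, hψ]⟩

theorem Df.ex {Q : R → (ℕ → R) → Prop} (h : Df (fun v => Q (v 0) (fun n => v (n + 1)))) :
    Df (fun v => ∃ x, Q x v) := by
  obtain ⟨φ, hφ⟩ := h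
  refine ⟨(BoundedFormula.relabel (n := 1) (k := 0)
    (fun i : ℕ => Nat.casesOn (motive := fun _ => ℕ ⊕ Fin 1) i (Sum.inr 0) Sum.inl) φ).ex,
    fun v => ?_⟩
  unfold Formula.Realize
  rw [BoundedFormula.realize_ex]
  refine exists_congr fun x => ?_
  rw [BoundedFormula.realize_relabel]
  have h := hφ (fun n => Nat.casesOn n x v)
  unfold Formula.Realize at h
  refine Iff.trans (iff_of_eq ?_) h
  congr 1
  · funext n
    cases n <;> simp [Fin.snoc]
  · exact Subsingleton.elim _ _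

theorem Df.all {Q : R → (ℕ → R) → Prop} (h : Df (fun v => Q (v 0) (fun n => v (n + 1)))) :
    Df (fun v => ∀ x, Q x v) := by
  have h2 := (Df.ex (Q := fun x v => ¬ Q x v) h.not).not
  simpa using h2

theorem Df.toFin {P : R → Prop} (h : Df (fun v : ℕ → R => P (v 0))) :
    ∃ φ : Language.ring.Formula (Fin 1), ∀ f : R, φ.Realize (fun _ => f) ↔ P f := by
  obtain ⟨φ, hφ⟩ := h
  refine ⟨φ.relabel (fun _ => 0), fun f => ?_⟩
  rw [Formula.realize_relabel, hφ]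
  rfl

end

end Pool.Agent.Helper632.Adm
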