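import Mathlib

/-!
A holomorphic function on the disc which is very large on a sequence of circles.
-/

open Metric Set Complex

namespace Pool.Agent.Helper632.Adm

/-- radii -/
noncomputable def q (n : ℕ) : ℝ := n / (n + 1)

/-- intermediate radii -/
noncomputable def sr (n : ℕ) : ℝ := (2 * n + 1) / (2 * n + 3)

theorem q_nonneg (n : ℕ) : 0 ≤ q n := by unfold q; positivity
theorem sr_pos (n : ℕ) : 0 < sr n := by unfold sr; positivity
theorem q_lt_one (n : ℕ) : q n < 1 := by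
  unfold q
  rw [div_lt_one (by positivity)]
  linarith
theorem q_lt_sr (n : ℕ) : q n < sr n := by
  unfold q sr
  rw [div_lt_div_iff₀ (by positivity) (by positivity)]
  nlinarith [n.cast_nonneg (α := ℝ)]
theorem sr_lt_q (n : ℕ) : sr n < q (n + 1) := by
  unfold q sr
  rw [div_lt_div_iff₀ (by positivity) (by positivity)]
  push_cast
  nlinarith [n.cast_nonneg (α := ℝ)]
theorem q_mono : Monotone q := by
  refine monotone_nat_of_le_succ fun n => ((q_lt_sr n).trans (sr_lt_q n)).le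

theorem tendsto_q : Filter.Tendsto q Filter.atTop (nhds 1) := by
  have h := tendsto_natCast_div_add_atTop (𝕜 := ℝ) (1 : ℝ)
  exact h

theorem exists_M (H : ℕ → ℝ) : ∃ M : ℕ → ℝ → ℕ, ∀ n P,
    H n + P + 2 ≤ (q (n + 1) / sr n) ^ (M n P) ∧ (q n / sr n) ^ (M n P) ≤ (1 / 2 : ℝ) ^ n := by
  have key : ∀ n : ℕ, ∀ P : ℝ, ∃ m : ℕ,
      H n + P + 2 ≤ (q (n + 1) / sr n) ^ m ∧ (q n / sr n) ^ m ≤ (1 / 2 : ℝ) ^ n := by
    intro n P
    have h1 : Filter.Tendsto (fun m : ℕ => (q (n + 1) / sr n) ^ m) Filter.atTop Filter.atTop :=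
      tendsto_pow_atTop_atTop_of_one_lt ((one_lt_div (sr_pos n)).2 (sr_lt_q n))
    have h2 : Filter.Tendsto (fun m : ℕ => (q n / sr n) ^ m) Filter.atTop (nhds 0) :=
      tendsto_pow_atTop_nhds_zero_of_lt_one (div_nonneg (q_nonneg n) (sr_pos n).le)
        ((div_lt_one (sr_pos n)).2 (q_lt_sr n))
    have h3 := (h1.eventually_ge_atTop (H n + P + 2)).and
      (h2.eventually_lt_const (show (0:ℝ) < (1/2)^n by positivity))
    obtain ⟨m, hm⟩ := h3.exists
    exact ⟨m, hm.1, hm.2.le⟩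
  choose M hM using key
  exact ⟨M, hM⟩

theorem exists_big (H : ℕ → ℝ) : ∃ b : ℂ → ℂ, DifferentiableOn ℂ b (ball 0 1) ∧
    ∀ n z, ‖z‖ = q (n + 1) → H n ≤ ‖b z‖ := by
  obtain ⟨M, hM⟩ := exists_M H
  let P : ℕ → ℝ := fun n => Nat.rec (motive := fun _ => ℝ) 0
    (fun k p => p + (1 / sr k) ^ (M k p)) n
  have hP0 : P 0 = 0 := rfl
  have hPs : ∀ n, P (n + 1) = P n + (1 / sr n) ^ (M n (P n)) := fun n => rfl
  let m : ℕ → ℕ := fun n => M n (P n)
  have hPsum : ∀ n, P n = ∑ k ∈ Finset.range n, (1 / sr k) ^ (m k) := by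
    intro n
    induction n with
    | zero => simp [hP0]
    | succ n ih => rw [Finset.sum_range_succ, ← ih, hPs]
  have hm1 : ∀ n, H n + P n + 2 ≤ (q (n + 1) / sr n) ^ m n := fun n => (hM n (P n)).1
  have hm2 : ∀ n, (q n / sr n) ^ m n ≤ (1 / 2 : ℝ) ^ n := fun n => (hM n (P n)).2
  let T : ℕ → ℂ → ℂ := fun k z => (z / sr k) ^ m k
  have hT : ∀ k z, ‖T k z‖ = (‖z‖ / sr k) ^ m k := by
    intro k z
    simp only [T, norm_pow, norm_div, Complex.norm_real, Real.norm_eq_abs, abs_of_pos (sr_pos k)]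
  have hT1 : ∀ k z, ‖z‖ ≤ 1 → ‖T k z‖ ≤ (1 / sr k) ^ m k := by
    intro k z hz
    rw [hT]
    exact pow_le_pow_left₀ (div_nonneg (norm_nonneg _) (sr_pos k).le)
      (div_le_div_of_nonneg_right hz (sr_pos k).le) _
  have hT2 : ∀ k z, ‖z‖ ≤ q k → ‖T k z‖ ≤ (1 / 2 : ℝ) ^ k := by
    intro k z hz
    rw [hT]
    exact (pow_le_pow_left₀ (div_nonneg (norm_nonneg _) (sr_pos k).le)
      (div_le_div_of_nonneg_right hz (sr_pos k).le) _).trans (hm2 k)
  have hgeo : Summable (fun k : ℕ => (1 / 2 : ℝ) ^ k) := summable_geometric_two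
  have hsum : ∀ N z, ‖z‖ ≤ q (N + 1) → Summable (fun k => T k z) := by
    intro N z hz
    rw [← summable_nat_add_iff (N + 1)]
    refine Summable.of_norm_bounded ((summable_nat_add_iff (N + 1)).2 hgeo) fun k => ?_
    exact hT2 _ z (hz.trans (q_mono (by lia)))
  refine ⟨fun z => ∑' k, T k z, ?_, ?_⟩
  · intro z hz
    have hz1 : ‖z‖ < 1 := by simpa using hz
    obtain ⟨N, hN⟩ := (tendsto_q.eventually_const_lt hz1).exists
    have hd : DifferentiableOn ℂ (fun z => ∑' k, T k z) (ball 0 (q N)) := by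
      refine differentiableOn_tsum_of_summable_norm
        (u := fun k => if k < N then (1 / sr k) ^ m k else (1 / 2 : ℝ) ^ k) ?_ ?_ isOpen_ball ?_
      · rw [← summable_nat_add_iff N]
        refine ((summable_nat_add_iff N).2 hgeo).congr fun k => ?_
        rw [if_neg (by lia)]
      · intro k
        exact ((differentiableOn_id.div_const _).pow _)
      · intro k w hw
        have hw1 : ‖w‖ < q N := by simpa using hw
        split_ifs with h
        · exact hT1 k w (hw1.le.trans (q_lt_one N).le)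
        · exact hT2 k w (hw1.le.trans (q_mono (by lia)))
    exact (hd.differentiableAt (isOpen_ball.mem_nhds (by simpa using hN))).differentiableWithinAt
  · intro n z hz
    have hs := hsum n z hz.le
    have h1 := hs.sum_add_tsum_nat_add (n + 1)
    rw [Finset.sum_range_succ] at h1
    have hle1 : ‖z‖ ≤ 1 := by rw [hz]; exact (q_lt_one _).le
    have h2 : ‖∑ k ∈ Finset.range n, T k z‖ ≤ P n := by
      rw [hPsum]
      exact (norm_sum_le _ _).trans (Finset.sum_le_sum fun k _ => hT1 k z hle1)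
    have h3 : ‖∑' k, T (k + (n + 1)) z‖ ≤ 2 := by
      refine tsum_of_norm_bounded hasSum_geometric_two fun k => ?_
      refine (hT2 _ z (hz.le.trans (q_mono (by lia)))).trans ?_
      exact pow_le_pow_of_le_one (by norm_num) (by norm_num) (by lia)
    have h4 : ‖T n z‖ = (q (n + 1) / sr n) ^ m n := by rw [hT, hz]
    have h5 := hm1 n
    show H n ≤ ‖∑' k, T k z‖
    rw [← h1]
    have h6 : ‖T n z‖ ≤ ‖(∑ k ∈ Finset.range n, T k z) + T n z + ∑' k, T (k + (n + 1)) z‖ +
        ‖∑ k ∈ Finset.range n, T k z‖ + ‖∑' k, T (k + (n + 1)) z‖ := by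
      have e : T n z = ((∑ k ∈ Finset.range n, T k z) + T n z + ∑' k, T (k + (n + 1)) z) -
        (∑ k ∈ Finset.range n, T k z) - ∑' k, T (k + (n + 1)) z := by ring
      calc ‖T n z‖ = ‖((∑ k ∈ Finset.range n, T k z) + T n z + ∑' k, T (k + (n + 1)) z) -
        (∑ k ∈ Finset.range n, T k z) - ∑' k, T (k + (n + 1)) z‖ := by rw [← e]
        _ ≤ _ := (norm_sub_le _ _).trans (add_le_add (norm_sub_le _ _) le_rfl)
    linarith

end Pool.Agent.Helper632.Adm
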