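import Mathlib

/-!
The ring of holomorphic functions on the unit disc.
-/

open Metric Set Complex

namespace Pool.Agent.Helper632.Adm

/-- holomorphic functions on the unit disc, with the value `g 0` outside the disc -/
def HD : Subring (ℂ → ℂ) where
  carrier := {g : ℂ → ℂ | DifferentiableOn ℂ g (Metric.ball (0:ℂ) 1) ∧
                ∀ z ∉ Metric.ball (0:ℂ) 1, g z = g 0}
  mul_mem' := by
    rintro a b ⟨ha, ha'⟩ ⟨hb, hb'⟩
    exact ⟨ha.mul hb, fun z hz => by simp only [Pi.mul_apply]; rw [ha' z hz, hb' z hz]⟩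
  one_mem' := ⟨differentiableOn_const _, fun z _ => rfl⟩
  add_mem' := by
    rintro a b ⟨ha, ha'⟩ ⟨hb, hb'⟩
    exact ⟨ha.add hb, fun z hz => by simp only [Pi.add_apply]; rw [ha' z hz, hb' z hz]⟩
  zero_mem' := ⟨differentiableOn_const _, fun z _ => rfl⟩
  neg_mem' := by
    rintro a ⟨ha, ha'⟩
    exact ⟨ha.neg, fun z hz => by simp only [Pi.neg_apply]; rw [ha' z hz]⟩

theorem closure_eq_HD : Subring.closure {g : ℂ → ℂ | DifferentiableOn ℂ g (Metric.ball (0:ℂ) 1) ∧
                ∀ z ∉ Metric.ball (0:ℂ) 1, g z = g 0} = HD :=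
  Subring.closure_eq HD

theorem diff (f : HD) : DifferentiableOn ℂ f.1 (ball 0 1) := f.2.1

theorem ext' {f g : HD} (h : ∀ z ∈ ball (0:ℂ) 1, f.1 z = g.1 z) : f = g := by
  apply Subtype.ext
  funext z
  by_cases hz : z ∈ ball (0:ℂ) 1
  · exact h z hz
  · rw [f.2.2 z hz, g.2.2 z hz]
    exact h 0 (mem_ball_self one_pos)

open Classical in
/-- the element given by a function holomorphic on the disc -/
noncomputable def mkH (h : ℂ → ℂ) (hh : DifferentiableOn ℂ h (ball 0 1)) : HD :=
  ⟨fun z => if z ∈ ball (0:ℂ) 1 then h z else h 0, by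
    refine ⟨hh.congr fun z hz => by simp only [hz, if_true], fun z hz => ?_⟩
    simp only [hz, if_false, mem_ball_self one_pos, if_true]⟩

theorem mkH_apply {h : ℂ → ℂ} (hh : DifferentiableOn ℂ h (ball 0 1)) {z : ℂ}
    (hz : z ∈ ball (0:ℂ) 1) : (mkH h hh).1 z = h z := by
  simp only [mkH, hz, if_true]

/-- constants -/
def cst : ℂ →+* HD where
  toFun c := ⟨fun _ => c, differentiableOn_const _, fun _ _ => rfl⟩
  map_one' := rfl
  map_mul' _ _ := rfl
  map_zero' := rfl
  map_add' _ _ := rfl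

@[simp] theorem cst_apply (c z : ℂ) : (cst c).1 z = c := rfl
@[simp] theorem add_apply' (f g : HD) (z : ℂ) : (f + g).1 z = f.1 z + g.1 z := rfl
@[simp] theorem sub_apply' (f g : HD) (z : ℂ) : (f - g).1 z = f.1 z - g.1 z := rfl
@[simp] theorem mul_apply' (f g : HD) (z : ℂ) : (f * g).1 z = f.1 z * g.1 z := rfl
@[simp] theorem neg_apply' (f : HD) (z : ℂ) : (-f).1 z = - f.1 z := rfl
@[simp] theorem one_apply' (z : ℂ) : (1 : HD).1 z = 1 := rfl
@[simp] theorem zero_apply' (z : ℂ) : (0 : HD).1 z = 0 := rfl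
@[simp] theorem two_apply' (z : ℂ) : (2 : HD).1 z = 2 := by
  rw [← one_add_one_eq_two, add_apply', one_apply']; norm_num

theorem cst_inj {a b : ℂ} (h : cst a = cst b) : a = b := by
  have := congrArg (fun f : HD => f.1 0) h
  simpa using this

/-- the coordinate -/
noncomputable def X : HD := mkH (fun z => z) differentiableOn_id

theorem X_apply {z : ℂ} (hz : z ∈ ball (0:ℂ) 1) : X.1 z = z := mkH_apply _ hz

/-- invertibility as used in formulas -/
def IsU (x : HD) : Prop := ∃ y, x * y = 1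

/-- irreducibility as used in formulas -/
def Irr (x : HD) : Prop := ¬ IsU x ∧ ∀ a b, x = a * b → IsU a ∨ IsU b

/-- divisibility as used in formulas -/
def Dv (x y : HD) : Prop := ∃ q, y = x * q

theorem isU_iff (f : HD) : IsU f ↔ ∀ z ∈ ball (0:ℂ) 1, f.1 z ≠ 0 := by
  constructor
  · rintro ⟨y, hy⟩ z hz h0
    have := congrArg (fun f : HD => f.1 z) hy
    simp [h0] at this
  · intro h
    refine ⟨mkH (fun z => (f.1 z)⁻¹) ((diff f).inv h), ext' fun z hz => ?_⟩
    rw [mul_apply', mkH_apply _ hz, one_apply', mul_inv_cancel₀ (h z hz)]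

theorem not_isU_iff (f : HD) : ¬ IsU f ↔ ∃ z ∈ ball (0:ℂ) 1, f.1 z = 0 := by
  rw [isU_iff]; push Not; rfl

theorem dv_of_zero {p : ℂ} (hp : p ∈ ball (0:ℂ) 1) {f : HD} (h : f.1 p = 0) :
    Dv (X - cst p) f := by
  have hd : DifferentiableOn ℂ (dslope f.1 p) (ball 0 1) :=
    (Complex.differentiableOn_dslope (isOpen_ball.mem_nhds hp)).2 (diff f)
  refine ⟨mkH _ hd, ext' fun z hz => ?_⟩
  rw [mul_apply', mkH_apply _ hz, sub_apply', X_apply hz, cst_apply]
  have := sub_smul_dslope f.1 p z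
  rw [smul_eq_mul, h, sub_zero] at this
  exact this.symm

theorem mul_isU {a b : HD} (ha : IsU a) (hb : IsU b) : IsU (a * b) := by
  obtain ⟨x, hx⟩ := ha
  obtain ⟨y, hy⟩ := hb
  exact ⟨x * y, by rw [mul_mul_mul_comm, hx, hy, one_mul]⟩

theorem irr_coord {p : ℂ} (hp : p ∈ ball (0:ℂ) 1) : Irr (X - cst p) := by
  constructor
  · rw [not_isU_iff]
    exact ⟨p, hp, by simp [X_apply hp]⟩
  · have key : ∀ a b : HD, X - cst p = a * b → a.1 p = 0 → IsU b := by
      intro a b hab ha
      obtain ⟨q, rfl⟩ := dv_of_zero hp ha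
      have h1 : ∀ z ∈ ball (0:ℂ) 1, z ≠ p → q.1 z * b.1 z = 1 := by
        intro z hz hzp
        have := congrArg (fun f : HD => f.1 z) hab
        simp only [sub_apply', mul_apply', X_apply hz, cst_apply] at this
        have hne : z - p ≠ 0 := sub_ne_zero.2 hzp
        have h2 : (z - p) * (q.1 z * b.1 z) = (z - p) * 1 := by rw [mul_one, ← mul_assoc]; exact this.symm
        exact mul_left_cancel₀ hne h2
      rw [isU_iff]
      intro z hz hb
      by_cases hzp : z = p
      · subst hzp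
        have hc : ContinuousAt (fun x => q.1 x * b.1 x) z :=
          (((diff q).differentiableAt (isOpen_ball.mem_nhds hz)).mul
            ((diff b).differentiableAt (isOpen_ball.mem_nhds hz))).continuousAt
        have h3 : Filter.Tendsto (fun x => q.1 x * b.1 x) (nhdsWithin z {z}ᶜ) (nhds (q.1 z * b.1 z)) :=
          hc.tendsto.mono_left nhdsWithin_le_nhds
        have h4 : Filter.Tendsto (fun x => q.1 x * b.1 x) (nhdsWithin z {z}ᶜ) (nhds 1) := by
          refine tendsto_const_nhds.congr' ?_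
          have h5 : ball (0:ℂ) 1 ∈ nhdsWithin z {z}ᶜ :=
            mem_nhdsWithin_of_mem_nhds (isOpen_ball.mem_nhds hz)
          filter_upwards [h5, self_mem_nhdsWithin] with x hx hxz
          exact (h1 x hx hxz).symm
        have h6 := tendsto_nhds_unique h3 h4
        rw [hb, mul_zero] at h6
        exact zero_ne_one h6
      · have := h1 z hz hzp
        rw [hb, mul_zero] at this
        exact zero_ne_one this
    intro a b hab
    have h0 : a.1 p * b.1 p = 0 := by
      have := congrArg (fun f : HD => f.1 p) hab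
      simp only [sub_apply', mul_apply', X_apply hp, cst_apply, sub_self] at this
      exact this.symm
    rcases mul_eq_zero.1 h0 with h | h
    · exact Or.inr (key a b hab h)
    · exact Or.inl (key b a (by rw [hab, mul_comm]) h)

theorem irr_form {w : HD} (hw : Irr w) : ∃ p ∈ ball (0:ℂ) 1, ∃ u : HD, IsU u ∧ w = (X - cst p) * u := by
  obtain ⟨p, hp, h0⟩ := (not_isU_iff w).1 hw.1
  obtain ⟨u, hu⟩ := dv_of_zero hp h0
  refine ⟨p, hp, u, ?_, hu⟩
  rcases hw.2 _ _ hu with h | h
  · exact absurd h (irr_coord hp).1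
  · exact h

theorem irr_zero_unique {w : HD} (hw : Irr w) {p q : ℂ} (hp : p ∈ ball (0:ℂ) 1)
    (hq : q ∈ ball (0:ℂ) 1) (h1 : w.1 p = 0) (h2 : w.1 q = 0) : p = q := by
  obtain ⟨r, hr, u, hu, rfl⟩ := irr_form hw
  rw [isU_iff] at hu
  simp only [mul_apply', sub_apply', cst_apply, X_apply hp, X_apply hq, mul_eq_zero, hu p hp,
    hu q hq, or_false, sub_eq_zero] at h1 h2
  rw [h1, h2]

theorem irr_dv_iff {w : HD} (hw : Irr w) {p : ℂ} (hp : p ∈ ball (0:ℂ) 1) (h1 : w.1 p = 0)
    (f : HD) : Dv w f ↔ f.1 p = 0 := by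
  constructor
  · rintro ⟨q, rfl⟩
    simp [h1]
  · intro h
    obtain ⟨r, hr, u, hu, hw'⟩ := irr_form hw
    have hrp : p = r := by
      refine irr_zero_unique hw hp hr h1 ?_
      rw [hw']
      simp [X_apply hr]
    subst hrp
    obtain ⟨q, rfl⟩ := dv_of_zero hp h
    obtain ⟨y, hy⟩ := hu
    refine ⟨y * q, ?_⟩
    rw [hw', mul_assoc, ← mul_assoc u, hy, one_mul]

/-- a holomorphic function on the disc is constant or its image is open -/
theorem const_or_open (f : HD) : (∃ c, f = cst c) ∨ IsOpen (f.1 '' ball (0:ℂ) 1) := by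
  have ha : AnalyticOnNhd ℂ f.1 (ball 0 1) := (diff f).analyticOnNhd isOpen_ball
  rcases ha.is_constant_or_isOpen (convex_ball _ _).isPreconnected with ⟨c, hc⟩ | h
  · exact Or.inl ⟨c, ext' fun z hz => hc z hz⟩
  · exact Or.inr (h _ Subset.rfl isOpen_ball)

end Pool.Agent.Helper632.Adm
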