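import Mathlib
import Pool.Agent.Helper632.Adm.Ring
import Pool.Agent.Helper632.Adm.Schottky
import Pool.Agent.Helper632.Adm.Lac

/-!
The integers are definable in the ring of holomorphic functions on the disc.
-/

open Metric Set Complex

namespace Pool.Agent.Helper632.Adm

/-- the relation used in the definition of the integers -/
def Phi (y b g : HD) : Prop := IsU (2 * y - 1) ∧ IsU (2 * y + 1) ∧ Dv (b - y) g

/-- definition of the integers -/
def IntP (x : HD) : Prop := ∀ b g, Phi 0 b g →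
  (∀ y, Phi y b g → Phi (y + 1) b g ∧ Phi (y - 1) b g) → Phi x b g

theorem intP_of_int (n : ℤ) : IntP (cst n) := by
  intro b g h0 hs
  induction n using Int.induction_on with
  | zero => simpa using h0
  | succ n ih =>
    have := (hs _ ih).1
    push_cast at this ⊢
    rw [map_add, map_one]
    exact this
  | pred n ih =>
    have := (hs _ ih).2
    push_cast at this ⊢
    rw [map_sub, map_one]
    exact this

/-- bound on the circles -/
noncomputable def B (n : ℕ) : ℝ := Real.exp (Real.pi * Real.exp (n / (1 - q (n + 1))))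

/-- required size on the circles -/
noncomputable def Hf (n : ℕ) : ℝ := B n + n * (Real.exp (2 * Real.pi * B n) + 1)

/-- quotient of `exp (2 π i w) - 1` by `w` -/
noncomputable def E : ℂ → ℂ := dslope (fun w => exp (2 * Real.pi * I * w)) 0

theorem E_mul (w : ℂ) : w * E w = exp (2 * Real.pi * I * w) - 1 := by
  have := sub_smul_dslope (fun w : ℂ => exp (2 * Real.pi * I * w)) 0 w
  simpa [E] using this

theorem E_diff : Differentiable ℂ E := by
  have h : Differentiable ℂ (fun w : ℂ => exp (2 * Real.pi * I * w)) := by fun_prop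
  rw [← differentiableOn_univ] at h ⊢
  exact (Complex.differentiableOn_dslope Filter.univ_mem).2 h

theorem sphere_bound {Q : ℂ → ℂ} (hQ : DifferentiableOn ℂ Q (ball 0 1)) {r C : ℝ} (h0 : 0 < r)
    (h1 : r < 1) (hb : ∀ z, ‖z‖ = r → ‖Q z‖ ≤ C) {z : ℂ} (hz : ‖z‖ ≤ r) : ‖Q z‖ ≤ C := by
  have hsub : closedBall (0:ℂ) r ⊆ ball 0 1 := closedBall_subset_ball h1
  have hd : DiffContOnCl ℂ Q (ball 0 r) := by
    refine ⟨hQ.mono (ball_subset_closedBall.trans hsub), ?_⟩
    rw [closure_ball (0:ℂ) h0.ne']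
    exact hQ.continuousOn.mono hsub
  refine Complex.norm_le_of_forall_mem_frontier_norm_le isBounded_ball hd ?_ ?_
  · intro w hw
    rw [frontier_ball (0:ℂ) h0.ne'] at hw
    exact hb w (by simpa using hw)
  · rw [closure_ball (0:ℂ) h0.ne']
    simpa using hz

theorem int_of_exp {y : HD} (h : ∀ z ∈ ball (0:ℂ) 1, exp (2 * Real.pi * I * y.1 z) = 1) :
    ∃ n : ℤ, y = cst n := by
  have h1 : ∀ z ∈ ball (0:ℂ) 1, ∃ n : ℤ, y.1 z = n := by
    intro z hz
    obtain ⟨n, hn⟩ := Complex.exp_eq_one_iff.1 (h z hz)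
    refine ⟨n, ?_⟩
    have hpi : (2 * Real.pi * I : ℂ) ≠ 0 := Complex.two_pi_I_ne_zero
    exact mul_left_cancel₀ hpi (by rw [hn, mul_comm])
  have h0 : (0:ℂ) ∈ ball (0:ℂ) 1 := mem_ball_self one_pos
  rcases const_or_open y with ⟨c, hc⟩ | ho
  · obtain ⟨n, hn⟩ := h1 0 h0
    refine ⟨n, ?_⟩
    rw [hc] at hn ⊢
    rw [cst_apply] at hn
    rw [hn]
  · exfalso
    obtain ⟨ε, hε, hb⟩ := Metric.isOpen_iff.1 ho _ (mem_image_of_mem _ h0)
    obtain ⟨n, hn⟩ := h1 0 h0
    have hmem : y.1 0 + ((min (ε / 2) (1 / 2) : ℝ) : ℂ) ∈ ball (y.1 0) ε := by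
      rw [mem_ball, dist_eq_norm, add_sub_cancel_left, Complex.norm_real, Real.norm_eq_abs,
        abs_of_pos (by positivity)]
      exact lt_of_le_of_lt (min_le_left _ _) (by linarith)
    obtain ⟨z, hz, hzy⟩ := hb hmem
    obtain ⟨k, hk⟩ := h1 z hz
    rw [hk, hn] at hzy
    have h5 : (((k - n : ℤ) : ℝ) : ℂ) = ((min (ε / 2) (1 / 2) : ℝ) : ℂ) := by
      push_cast
      linear_combination hzy
    have h6 : ((k - n : ℤ) : ℝ) = min (ε / 2) (1 / 2) := by exact_mod_cast h5
    have h7 : (0 : ℝ) < ((k - n : ℤ) : ℝ) := by rw [h6]; positivity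
    have h8 : ((k - n : ℤ) : ℝ) < 1 := by
      rw [h6]; exact lt_of_le_of_lt (min_le_right _ _) (by norm_num)
    have h9 : (0 : ℤ) < k - n := by exact_mod_cast h7
    have h10 : k - n < (1 : ℤ) := by exact_mod_cast h8
    lia

theorem exists_special : ∃ b g : HD, (∀ n : ℤ, Phi (cst n) b g) ∧
    ∀ y, Phi y b g → ∃ n : ℤ, y = cst n := by
  obtain ⟨b0, hb0, hbig⟩ := exists_big Hf
  have hg0 : DifferentiableOn ℂ (fun z => exp (2 * Real.pi * I * b0 z) - 1) (ball 0 1) := by
    fun_prop
  refine ⟨mkH b0 hb0, mkH _ hg0, ?_, ?_⟩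
  · intro n
    refine ⟨?_, ?_, ?_⟩
    · rw [isU_iff]
      intro z hz h
      simp only [sub_apply', mul_apply', two_apply', cst_apply, one_apply'] at h
      have h2 : ((2 * n - 1 : ℤ) : ℂ) = 0 := by push_cast; exact h
      have h3 : (2 * n - 1 : ℤ) = 0 := by exact_mod_cast h2
      lia
    · rw [isU_iff]
      intro z hz h
      simp only [add_apply', mul_apply', two_apply', cst_apply, one_apply'] at h
      have h2 : ((2 * n + 1 : ℤ) : ℂ) = 0 := by push_cast; exact h
      have h3 : (2 * n + 1 : ℤ) = 0 := by exact_mod_cast h2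
      lia
    · have hd : DifferentiableOn ℂ (fun z => E (b0 z - n)) (ball 0 1) :=
        E_diff.comp_differentiableOn (hb0.sub_const _)
      refine ⟨mkH _ hd, ext' fun z hz => ?_⟩
      rw [mul_apply', mkH_apply _ hz, mkH_apply _ hz, sub_apply', mkH_apply _ hz, cst_apply,
        E_mul]
      congr 1
      rw [mul_sub, Complex.exp_sub]
      have : exp (2 * Real.pi * I * n) = 1 := by
        rw [mul_comm]; exact Complex.exp_int_mul_two_pi_mul_I n
      rw [this, div_one]
  · rintro y ⟨hy1, hy2, k, hk⟩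
    rw [isU_iff] at hy1 hy2
    have hyd : DifferentiableOn ℂ (fun z => 2 * y.1 z) (ball 0 1) := (diff y).const_mul 2
    obtain ⟨j, hj, hjb⟩ := schottky hyd
      (fun z hz h => hy1 z hz (by simp [h])) (fun z hz h => hy2 z hz (by simp [h]))
    have hyb : ∀ z ∈ ball (0:ℂ) 1, ‖y.1 z‖ ≤ Real.exp (Real.pi * Real.exp (j / (1 - ‖z‖))) := by
      intro z hz
      refine le_trans ?_ (hjb z hz)
      rw [norm_mul, Complex.norm_ofNat]
      linarith [norm_nonneg (y.1 z)]
    have hQd : DifferentiableOn ℂ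
        (fun z => k.1 z - exp (2 * Real.pi * I * y.1 z) * E (b0 z - y.1 z)) (ball 0 1) := by
      refine (diff k).sub (DifferentiableOn.mul ?_ (E_diff.comp_differentiableOn (hb0.sub (diff y))))
      exact ((diff y).const_mul _).cexp
    have hQ : ∀ z ∈ ball (0:ℂ) 1, exp (2 * Real.pi * I * y.1 z) - 1 =
        (b0 z - y.1 z) * (k.1 z - exp (2 * Real.pi * I * y.1 z) * E (b0 z - y.1 z)) := by
      intro z hz
      have h1 := congrArg (fun f : HD => f.1 z) hk
      simp only [mkH_apply hg0 hz, mul_apply', sub_apply', mkH_apply hb0 hz] at h1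
      have h2 := E_mul (b0 z - y.1 z)
      have h3 : exp (2 * Real.pi * I * b0 z) =
          exp (2 * Real.pi * I * y.1 z) * exp (2 * Real.pi * I * (b0 z - y.1 z)) := by
        rw [← Complex.exp_add]; congr 1; ring
      linear_combination h1 - h3 + exp (2 * Real.pi * I * y.1 z) * h2
    have hsmall : ∀ n : ℕ, j ≤ n → 0 < n → ∀ z, ‖z‖ = q (n + 1) →
        ‖k.1 z - exp (2 * Real.pi * I * y.1 z) * E (b0 z - y.1 z)‖ ≤ 1 / n := by
      intro n hjn hn z hz
      have hzb : z ∈ ball (0:ℂ) 1 := by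
        rw [mem_ball_zero_iff, hz]; exact q_lt_one _
      have hn' : (0:ℝ) < n := by exact_mod_cast hn
      have hq1 : 0 < 1 - q (n + 1) := by linarith [q_lt_one (n + 1)]
      have h1 : ‖y.1 z‖ ≤ B n := by
        refine (hyb z hzb).trans ?_
        rw [hz]
        unfold B
        gcongr
      have h2 : B n + n * (Real.exp (2 * Real.pi * B n) + 1) ≤ ‖b0 z‖ := hbig n z hz
      have h3 : n * (Real.exp (2 * Real.pi * B n) + 1) ≤ ‖b0 z - y.1 z‖ := by
        have := norm_sub_norm_le (b0 z) (y.1 z)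
        linarith
      have h4 : ‖exp (2 * Real.pi * I * y.1 z) - 1‖ ≤ Real.exp (2 * Real.pi * B n) + 1 := by
        refine (norm_sub_le _ _).trans ?_
        rw [norm_one]
        refine add_le_add ?_ le_rfl
        refine (norm_exp_le_exp_norm _).trans (Real.exp_le_exp.2 ?_)
        rw [norm_mul, norm_mul, norm_mul, norm_I, mul_one, Complex.norm_ofNat, Complex.norm_real,
          Real.norm_eq_abs, abs_of_pos Real.pi_pos]
        exact mul_le_mul_of_nonneg_left h1 (by positivity)
      rw [hQ z hzb, norm_mul] at h4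
      set A := Real.exp (2 * Real.pi * B n) + 1 with hA
      have hApos : 0 < A := by positivity
      set x := ‖k.1 z - exp (2 * Real.pi * I * y.1 z) * E (b0 z - y.1 z)‖ with hx
      have hx0 : 0 ≤ x := norm_nonneg _
      rw [le_div_iff₀ hn']
      have h5 : n * A * x ≤ A := (mul_le_mul_of_nonneg_right h3 hx0).trans h4
      have h6 : A * (x * n) ≤ A * 1 := by linarith
      exact le_of_mul_le_mul_left h6 hApos
    have hzero : ∀ z ∈ ball (0:ℂ) 1,
        k.1 z - exp (2 * Real.pi * I * y.1 z) * E (b0 z - y.1 z) = 0 := by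
      intro z hz
      have hz1 : ‖z‖ < 1 := by simpa using hz
      have h1 : ∀ᶠ n : ℕ in Filter.atTop,
          ‖k.1 z - exp (2 * Real.pi * I * y.1 z) * E (b0 z - y.1 z)‖ ≤ 1 / n := by
        have e1 : ∀ᶠ n : ℕ in Filter.atTop, ‖z‖ < q n := tendsto_q.eventually_const_lt hz1
        have e2 : ∀ᶠ n : ℕ in Filter.atTop, j ≤ (n:ℝ) :=
          tendsto_natCast_atTop_atTop.eventually_ge_atTop j
        filter_upwards [e1, e2, Filter.eventually_gt_atTop 0] with n hn1 hn2 hn3
        refine sphere_bound hQd (r := q (n + 1)) ?_ (q_lt_one _) (hsmall n hn2 hn3) ?_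
        · exact lt_of_le_of_lt (norm_nonneg z) (hn1.trans_le (q_mono (by lia)))
        · exact hn1.le.trans (q_mono (by lia))
      have h2 : Filter.Tendsto (fun n : ℕ => (1:ℝ) / n) Filter.atTop (nhds 0) :=
        tendsto_one_div_atTop_nhds_zero_nat
      have h3 := ge_of_tendsto h2 h1
      exact norm_le_zero_iff.1 h3
    refine int_of_exp fun z hz => ?_
    have h1 := hQ z hz
    rw [hzero z hz, mul_zero] at h1
    exact sub_eq_zero.1 h1

theorem intP_iff (x : HD) : IntP x ↔ ∃ n : ℤ, x = cst n := by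
  constructor
  · intro h
    obtain ⟨b, g, h1, h2⟩ := exists_special
    refine h2 x (h b g (by simpa using h1 0) ?_)
    intro y hy
    obtain ⟨n, rfl⟩ := h2 y hy
    have e1 := h1 (n + 1)
    have e2 := h1 (n - 1)
    push_cast at e1 e2
    rw [map_add, map_one] at e1
    rw [map_sub, map_one] at e2
    exact ⟨e1, e2⟩
  · rintro ⟨n, rfl⟩
    exact intP_of_int n

end Pool.Agent.Helper632.Adm
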