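import Mathlib
import Pool.Agent.Helper632.Adm.Int

/-!
The constants are definable in the ring of holomorphic functions on the disc.
-/

open Metric Set Complex

namespace Pool.Agent.Helper632.Adm

theorem const_of_countable (f : HD) (h : (f.1 '' ball (0:ℂ) 1).Countable) : ∃ c, f = cst c := by
  rcases const_or_open f with h1 | h1
  · exact h1
  · exfalso
    have hd : Dense (f.1 '' ball (0:ℂ) 1)ᶜ := h.dense_compl ℝ
    obtain ⟨x, hx, hx'⟩ := hd.inter_open_nonempty _ h1
      (Set.Nonempty.image _ ⟨0, mem_ball_self one_pos⟩)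
    exact hx' hx

/-- the field `Q(i)` -/
def KP (α : HD) : Prop := ∃ i a b n : HD, i * i = -1 ∧ IntP a ∧ IntP b ∧ IntP n ∧ n ≠ 0 ∧
  n * α = a + i * b

/-- definition of the constants -/
def Const (x : HD) : Prop := ∀ α, KP α → x = α ∨ IsU (x - α)

theorem KP_const {α : HD} (h : KP α) : ∃ c, α = cst c := by
  obtain ⟨i, a, b, n, hi, ha, hb, hn, hn0, hα⟩ := h
  obtain ⟨a, rfl⟩ := (intP_iff _).1 ha
  obtain ⟨b, rfl⟩ := (intP_iff _).1 hb
  obtain ⟨n, rfl⟩ := (intP_iff _).1 hn
  have hn1 : (n : ℂ) ≠ 0 := fun h => hn0 (by rw [h, map_zero])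
  refine const_of_countable α (Set.Countable.mono
    (s₂ := {(a + I * b) / n, (a - I * b) / n}) ?_ (Set.to_countable _))
  rintro _ ⟨z, hz, rfl⟩
  have h1 := congrArg (fun f : HD => f.1 z) hα
  have h2 := congrArg (fun f : HD => f.1 z) hi
  simp only [mul_apply', cst_apply, add_apply', neg_apply', one_apply'] at h1 h2
  have h3 : (i.1 z - I) * (i.1 z + I) = 0 := by linear_combination h2 - I_mul_I
  have h4 : α.1 z = (a + i.1 z * b) / n := by rw [← h1]; field_simp
  rcases mul_eq_zero.1 h3 with h | h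
  · left; rw [h4, sub_eq_zero.1 h]
  · right
    rw [h4, eq_neg_of_add_eq_zero_left h, mem_singleton_iff, neg_mul, sub_eq_add_neg]

theorem KP_cst (a b n : ℤ) (hn : n ≠ 0) : KP (cst ((a + I * b) / n)) := by
  have hn1 : (n : ℂ) ≠ 0 := by exact_mod_cast hn
  refine ⟨cst I, cst a, cst b, cst n, ?_, (intP_iff _).2 ⟨a, rfl⟩, (intP_iff _).2 ⟨b, rfl⟩,
    (intP_iff _).2 ⟨n, rfl⟩, ?_, ?_⟩
  · rw [← map_mul, I_mul_I, map_neg, map_one]
  · intro h
    rw [← map_zero cst] at h
    exact hn1 (cst_inj h)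
  · rw [← map_mul, ← map_mul, ← map_add, mul_div_cancel₀ _ hn1]

theorem dense_KP {U : Set ℂ} (hU : IsOpen U) {v : ℂ} (hv : v ∈ U) :
    ∃ a b n : ℤ, n ≠ 0 ∧ ((a + I * b) / n : ℂ) ∈ U := by
  obtain ⟨ε, hε, hb⟩ := Metric.isOpen_iff.1 hU v hv
  obtain ⟨N, hN⟩ := exists_nat_gt (1 / ε)
  have hN0 : (0:ℝ) < N := lt_trans (by positivity) hN
  refine ⟨round (N * v.re), round (N * v.im), N, by
    have : N ≠ 0 := by rintro rfl; simp at hN0
    exact_mod_cast this, hb ?_⟩
  rw [mem_ball, dist_eq_norm]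
  have h1 := Complex.norm_le_abs_re_add_abs_im
    (((round (N * v.re) : ℤ) + I * (round (N * v.im) : ℤ)) / ((N : ℤ) : ℂ) - v)
  have hNc : ((N : ℤ) : ℂ) = ((N : ℝ) : ℂ) := by push_cast; rfl
  have e : ((round (N * v.re) : ℤ) + I * (round (N * v.im) : ℤ)) / ((N : ℤ) : ℂ) - v =
      (((round (N * v.re) : ℝ) / N - v.re : ℝ) : ℂ) + (((round (N * v.im) : ℝ) / N - v.im : ℝ) : ℂ) * I := by
    rw [hNc]
    push_cast
    linear_combination Complex.re_add_im v
  rw [e] at h1 ⊢
  have h2 : |(round (N * v.re) : ℝ) / N - v.re| ≤ 1 / (2 * N) := by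
    have h := abs_sub_round ((N:ℝ) * v.re)
    have e2 : (round (N * v.re) : ℝ) / N - v.re = -(((N:ℝ) * v.re - round (N * v.re)) / N) := by
      field_simp; ring
    rw [e2, abs_neg, abs_div, abs_of_pos hN0, div_le_div_iff₀ hN0 (by positivity)]
    nlinarith
  have h3 : |(round (N * v.im) : ℝ) / N - v.im| ≤ 1 / (2 * N) := by
    have h := abs_sub_round ((N:ℝ) * v.im)
    have e2 : (round (N * v.im) : ℝ) / N - v.im = -(((N:ℝ) * v.im - round (N * v.im)) / N) := by
      field_simp; ring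
    rw [e2, abs_neg, abs_div, abs_of_pos hN0, div_le_div_iff₀ hN0 (by positivity)]
    nlinarith
  simp only [Complex.add_re, Complex.ofReal_re, Complex.mul_re, Complex.I_re, Complex.ofReal_im,
    Complex.I_im, Complex.add_im, Complex.mul_im, mul_zero, mul_one, sub_zero, add_zero,
    zero_add] at h1
  refine lt_of_le_of_lt h1 ?_
  have h4 : 1 / (2 * (N:ℝ)) + 1 / (2 * N) = 1 / N := by field_simp; norm_num
  have h5 : 1 / (N:ℝ) < ε := by
    rw [div_lt_iff₀ hN0]
    rwa [div_lt_iff₀ hε, mul_comm] at hN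
  linarith

theorem const_iff (x : HD) : Const x ↔ ∃ c, x = cst c := by
  constructor
  · intro h
    rcases const_or_open x with h1 | h1
    · exact h1
    · exfalso
      obtain ⟨a, b, n, hn, hmem⟩ := dense_KP h1 (mem_image_of_mem x.1 (mem_ball_self one_pos))
      rcases h _ (KP_cst a b n hn) with h2 | h2
      · rw [h2] at h1
        have h3 : ((cst ((a + I * b) / n)).1 '' ball (0:ℂ) 1).Countable := by
          refine Set.Countable.mono (s₂ := {(a + I * b) / n}) ?_ (Set.to_countable _)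
          rintro _ ⟨z, hz, rfl⟩
          rfl
        have hd : Dense ((cst ((a + I * b) / n)).1 '' ball (0:ℂ) 1)ᶜ := h3.dense_compl ℝ
        obtain ⟨x, hx, hx'⟩ := hd.inter_open_nonempty _ h1
          (Set.Nonempty.image _ ⟨0, mem_ball_self one_pos⟩)
        exact hx' hx
      · obtain ⟨z, hz, hzx⟩ := hmem
        rw [isU_iff] at h2
        exact h2 z hz (by rw [sub_apply', hzx, cst_apply, sub_self])
  · rintro ⟨c, rfl⟩ α hα
    obtain ⟨d, rfl⟩ := KP_const hα
    by_cases h : c = d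
    · left; rw [h]
    · right
      rw [isU_iff]
      intro z hz
      rw [sub_apply', cst_apply, cst_apply]
      exact sub_ne_zero.2 h

end Pool.Agent.Helper632.Adm
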