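import Mathlib
import Pool.Agent.Helper632.Adm.Const

/-!
Coordinates on the disc, moduli of constants, values of functions.
-/

open Metric Set Complex

namespace Pool.Agent.Helper632.Adm

/-- values of `w` -/
def Om (w c : HD) : Prop := Const c ∧ ¬ IsU (w - c)

/-- `w` is a coordinate with image the unit disc -/
def Dsk (w : HD) : Prop := (∀ c, Const c → IsU (w - c) ∨ Irr (w - c)) ∧ Om w 0 ∧ ¬ Om w 1 ∧
  (∀ c, Const c → (∀ e, Om w e → Om w (c * e)) ∨ (∀ e, Const e → Om w (c * e) → Om w e)) ∧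
  (∀ c, Const c → Om w (c * c) → Om w c)

/-- comparison of moduli of constants -/
def Le (w c d : HD) : Prop := ∀ e, Const e → Om w (e * d) → Om w (e * c)

/-- real numbers in `[0,1)` -/
def Pos (w ρ : HD) : Prop := Om w ρ ∧ ∀ d, Const d → Le w d ρ → Le w (1 - ρ) (1 - d)

theorem const_cst (c : ℂ) : Const (cst c) := (const_iff _).2 ⟨c, rfl⟩

theorem om_iff (w : HD) (c : ℂ) : Om w (cst c) ↔ c ∈ w.1 '' ball (0:ℂ) 1 := by
  constructor
  · rintro ⟨-, h⟩
    obtain ⟨z, hz, h0⟩ := (not_isU_iff _).1 h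
    refine ⟨z, hz, ?_⟩
    rw [sub_apply', cst_apply] at h0
    exact sub_eq_zero.1 h0
  · rintro ⟨z, hz, rfl⟩
    refine ⟨const_cst _, (not_isU_iff _).2 ⟨z, hz, ?_⟩⟩
    simp

theorem not_isU_zero : ¬ IsU (0 : HD) := by
  rw [not_isU_iff]
  exact ⟨0, mem_ball_self one_pos, rfl⟩

theorem dsk_open {w : HD} (h : Dsk w) : IsOpen (w.1 '' ball (0:ℂ) 1) := by
  rcases const_or_open w with ⟨c, hc⟩ | h1
  · exfalso
    rcases h.1 (cst c) (const_cst c) with h2 | h2
    · rw [hc, sub_self] at h2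
      exact not_isU_zero h2
    · rw [hc, sub_self] at h2
      rcases h2.2 0 0 (by rw [mul_zero]) with h3 | h3
      · exact not_isU_zero h3
      · exact not_isU_zero h3
  · exact h1

theorem dsk_image {w : HD} (h : Dsk w) : w.1 '' ball (0:ℂ) 1 = ball (0:ℂ) 1 := by
  have ho := dsk_open h
  obtain ⟨-, h0, h1, h3, h4⟩ := h
  set Ω := w.1 '' ball (0:ℂ) 1 with hΩ
  have e0 : (0:ℂ) ∈ Ω := (om_iff w 0).1 (by rw [map_zero]; exact h0)
  have e1 : (1:ℂ) ∉ Ω := fun h => h1 (by have := (om_iff w 1).2 h; rwa [map_one] at this)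
  have e3 : ∀ c : ℂ, (∀ e ∈ Ω, c * e ∈ Ω) ∨ (∀ e, c * e ∈ Ω → e ∈ Ω) := by
    intro c
    rcases h3 (cst c) (const_cst c) with h | h
    · left
      intro e he
      rw [hΩ, ← om_iff, map_mul]
      exact h _ ((om_iff w e).2 he)
    · right
      intro e he
      rw [hΩ, ← om_iff]
      refine h _ (const_cst e) ?_
      rw [← map_mul]
      exact (om_iff w _).2 he
  have e4 : ∀ c : ℂ, c * c ∈ Ω → c ∈ Ω := by
    intro c hc
    rw [hΩ, ← om_iff]
    refine h4 _ (const_cst c) ?_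
    rw [← map_mul]
    exact (om_iff w _).2 hc
  have hn : Ω ∈ nhds (0:ℂ) := ho.mem_nhds e0
  have hA : ∀ c : ℂ, ‖c‖ < 1 → ∀ e ∈ Ω, c * e ∈ Ω := by
    intro c hc
    rcases e3 c with h | h
    · exact h
    · exfalso
      have ht : Filter.Tendsto (fun n : ℕ => c ^ n) Filter.atTop (nhds 0) :=
        tendsto_pow_atTop_nhds_zero_of_norm_lt_one hc
      obtain ⟨n, hn'⟩ := (ht.eventually hn).exists
      have : ∀ n : ℕ, c ^ n ∈ Ω → (1:ℂ) ∈ Ω := by
        intro n
        induction n with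
        | zero => intro h; simpa using h
        | succ n ih => intro h'; exact ih (h _ (by rwa [← pow_succ']))
      exact e1 (this n hn')
  have hB : ∀ e ω : ℂ, ω ∈ Ω → ‖e‖ < ‖ω‖ → e ∈ Ω := by
    intro e ω hω hlt
    have hω0 : ω ≠ 0 := norm_pos_iff.1 (lt_of_le_of_lt (norm_nonneg _) hlt)
    have := hA (e / ω) (by rw [norm_div]; exact (div_lt_one (norm_pos_iff.2 hω0)).2 hlt) ω hω
    rwa [div_mul_cancel₀ _ hω0] at this
  apply Subset.antisymm
  · intro ω hω
    by_contra hcon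
    have hω1 : 1 ≤ ‖ω‖ := by simpa using hcon
    have ht : Filter.Tendsto (fun δ : ℝ => (1 + (δ:ℂ)) * ω) (nhdsWithin 0 (Ioi 0)) (nhds ω) := by
      have hc : Continuous (fun δ : ℝ => (1 + (δ:ℂ)) * ω) := by fun_prop
      have := hc.tendsto 0
      simp only [Complex.ofReal_zero, add_zero, one_mul] at this
      exact this.mono_left nhdsWithin_le_nhds
    obtain ⟨δ, hδ, hδ0⟩ := ((ht.eventually (ho.mem_nhds hω)).and self_mem_nhdsWithin).exists
    refine e1 (hB 1 _ hδ ?_)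
    have hδ1 : (0:ℝ) < δ := hδ0
    have e : ‖(1 + (δ:ℂ))‖ = 1 + δ := by
      rw [show (1 + (δ:ℂ)) = ((1 + δ : ℝ) : ℂ) by push_cast; rfl, Complex.norm_real,
        Real.norm_eq_abs, abs_of_pos (by linarith)]
    rw [norm_mul, e, norm_one]
    nlinarith
  · intro c hc
    have hc1 : ‖c‖ < 1 := by simpa using hc
    have ht : Filter.Tendsto (fun n : ℕ => c ^ (2 ^ n)) Filter.atTop (nhds 0) :=
      (tendsto_pow_atTop_nhds_zero_of_norm_lt_one hc1).comp
        (tendsto_pow_atTop_atTop_of_one_lt (by norm_num))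
    obtain ⟨n, hn'⟩ := (ht.eventually hn).exists
    have : ∀ n : ℕ, c ^ (2 ^ n) ∈ Ω → c ∈ Ω := by
      intro n
      induction n with
      | zero => intro h; simpa using h
      | succ n ih =>
        intro h'
        refine ih (e4 _ ?_)
        rwa [← pow_add, ← two_mul, ← pow_succ']
    exact this n hn'

theorem dsk_om {w : HD} (h : Dsk w) (c : ℂ) : Om w (cst c) ↔ ‖c‖ < 1 := by
  rw [om_iff, dsk_image h]
  simp

theorem dsk_maps {w : HD} (h : Dsk w) {z : ℂ} (hz : z ∈ ball (0:ℂ) 1) : ‖w.1 z‖ < 1 := by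
  have : w.1 z ∈ w.1 '' ball (0:ℂ) 1 := mem_image_of_mem _ hz
  rw [dsk_image h] at this
  simpa using this

theorem dsk_surj {w : HD} (h : Dsk w) {c : ℂ} (hc : ‖c‖ < 1) : ∃ p ∈ ball (0:ℂ) 1, w.1 p = c := by
  have : c ∈ w.1 '' ball (0:ℂ) 1 := by rw [dsk_image h]; simpa using hc
  exact this

theorem dsk_ev {w : HD} (h : Dsk w) {p : ℂ} (hp : p ∈ ball (0:ℂ) 1) {c : ℂ} (hc : w.1 p = c)
    (f : HD) (e : ℂ) : Dv (w - cst c) (f - cst e) ↔ f.1 p = e := by
  subst hc
  have h0 : (w - cst (w.1 p)).1 p = 0 := by simp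
  have hirr : Irr (w - cst (w.1 p)) := by
    rcases h.1 _ (const_cst (w.1 p)) with h1 | h1
    · exact absurd h0 ((isU_iff _).1 h1 p hp)
    · exact h1
  rw [irr_dv_iff hirr hp h0, sub_apply', cst_apply, sub_eq_zero]

theorem dsk_le {w : HD} (h : Dsk w) (c d : ℂ) : Le w (cst c) (cst d) ↔ ‖c‖ ≤ ‖d‖ := by
  constructor
  · intro hle
    by_contra hcon
    push Not at hcon
    have hc0 : c ≠ 0 := norm_pos_iff.1 (lt_of_le_of_lt (norm_nonneg _) hcon)
    have h1 := hle (cst (1 / c)) (const_cst _) (by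
      rw [← map_mul, dsk_om h, one_div, norm_mul, norm_inv]
      rw [inv_mul_lt_iff₀ (norm_pos_iff.2 hc0), mul_one]
      exact hcon)
    rw [← map_mul, dsk_om h, one_div, inv_mul_cancel₀ hc0, norm_one] at h1
    exact lt_irrefl _ h1
  · intro hle e he hom
    obtain ⟨e, rfl⟩ := (const_iff _).1 he
    rw [← map_mul, dsk_om h, norm_mul] at hom ⊢
    exact lt_of_le_of_lt (mul_le_mul_of_nonneg_left hle (norm_nonneg _)) hom

theorem dsk_pos {w : HD} (h : Dsk w) (ρ : ℂ) :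
    Pos w (cst ρ) ↔ ∃ r : ℝ, 0 ≤ r ∧ r < 1 ∧ ρ = r := by
  constructor
  · rintro ⟨h1, h2⟩
    rw [dsk_om h] at h1
    have h3 := h2 (cst ((‖ρ‖ : ℝ) : ℂ)) (const_cst _) (by
      rw [dsk_le h, Complex.norm_real, norm_norm])
    rw [← map_one cst, ← map_sub, ← map_sub, dsk_le h] at h3
    have h4 : ‖(1:ℂ) - ((‖ρ‖ : ℝ) : ℂ)‖ = 1 - ‖ρ‖ := by
      rw [show (1:ℂ) - ((‖ρ‖ : ℝ) : ℂ) = ((1 - ‖ρ‖ : ℝ) : ℂ) by push_cast; rfl, Complex.norm_real,
        Real.norm_eq_abs, abs_of_pos (by linarith)]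
    rw [h4] at h3
    have h5 := Complex.re_le_norm (1 - ρ)
    rw [Complex.sub_re, Complex.one_re] at h5
    have h6 := Complex.re_le_norm ρ
    have h7 : ρ.re = ‖ρ‖ := le_antisymm h6 (by linarith)
    refine ⟨‖ρ‖, norm_nonneg _, h1, ?_⟩
    have h8 := Complex.re_eq_norm.1 h7
    rw [Complex.le_def] at h8
    apply Complex.ext
    · rw [Complex.ofReal_re]; exact h7
    · rw [Complex.ofReal_im]; simpa using h8.2.symm
  · rintro ⟨r, h0, h1, rfl⟩
    refine ⟨?_, ?_⟩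
    · rw [dsk_om h, Complex.norm_real, Real.norm_eq_abs, abs_of_nonneg h0]; exact h1
    · intro d hd hle
      obtain ⟨d, rfl⟩ := (const_iff _).1 hd
      rw [dsk_le h, Complex.norm_real, Real.norm_eq_abs, abs_of_nonneg h0] at hle
      rw [← map_one cst, ← map_sub, ← map_sub, dsk_le h]
      rw [show (1:ℂ) - (r : ℂ) = ((1 - r : ℝ) : ℂ) by push_cast; rfl, Complex.norm_real,
        Real.norm_eq_abs, abs_of_pos (by linarith)]
      have h3 : ‖(1:ℂ)‖ - ‖d‖ ≤ ‖1 - d‖ := norm_sub_norm_le _ _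
      rw [norm_one] at h3
      linarith

theorem X_image : X.1 '' ball (0:ℂ) 1 = ball (0:ℂ) 1 := by
  ext c
  constructor
  · rintro ⟨z, hz, rfl⟩; rwa [X_apply hz]
  · intro hc; exact ⟨c, hc, X_apply hc⟩

theorem om_X (c : ℂ) : Om X (cst c) ↔ ‖c‖ < 1 := by
  rw [om_iff, X_image]
  simp

theorem dsk_X : Dsk X := by
  refine ⟨?_, ?_, ?_, ?_, ?_⟩
  · intro c hc
    obtain ⟨c, rfl⟩ := (const_iff _).1 hc
    by_cases h : c ∈ ball (0:ℂ) 1
    · exact Or.inr (irr_coord h)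
    · left
      rw [isU_iff]
      intro z hz h0
      rw [sub_apply', X_apply hz, cst_apply, sub_eq_zero] at h0
      exact h (h0 ▸ hz)
  · rw [← map_zero cst, om_X]; simp
  · rw [← map_one cst, om_X]; simp
  · intro c hc
    obtain ⟨c, rfl⟩ := (const_iff _).1 hc
    rcases le_total ‖c‖ 1 with h | h
    · left
      intro e he
      obtain ⟨e, rfl⟩ := (const_iff _).1 he.1
      rw [om_X] at he
      rw [← map_mul, om_X, norm_mul]
      nlinarith [norm_nonneg c, norm_nonneg e]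
    · right
      intro e he hom
      obtain ⟨e, rfl⟩ := (const_iff _).1 he
      rw [← map_mul, om_X, norm_mul] at hom
      rw [om_X]
      nlinarith [norm_nonneg c, norm_nonneg e]
  · intro c hc hom
    obtain ⟨c, rfl⟩ := (const_iff _).1 hc
    rw [← map_mul, om_X, norm_mul] at hom
    rw [om_X]
    nlinarith [norm_nonneg c]

end Pool.Agent.Helper632.Adm
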