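import Mathlib
import Pool.Agent.Helper632.Adm.Disc

/-!
Analytic tools: approximation on circles, mean values, Harnack and Schwarz-Pick inequalities.
-/

open Metric Set Complex Real

open scoped ComplexConjugate

namespace Pool.Agent.Helper632.Adm

/-- a point of the unit circle as a value of the parametrisation -/
theorem exists_toCircle {ζ : ℂ} (h : ‖ζ‖ = 1) :
    ∃ x : AddCircle (1:ℝ), ((AddCircle.toCircle x : Circle) : ℂ) = ζ := by
  have hs := (AddCircle.homeomorphCircle (T := (1:ℝ)) one_ne_zero).surjective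
    ⟨ζ, mem_sphere_zero_iff_norm.2 h⟩
  obtain ⟨x, hx⟩ := hs
  rw [AddCircle.homeomorphCircle_apply] at hx
  exact ⟨x, by rw [hx]⟩

theorem span_form (g : C(AddCircle (1:ℝ), ℂ))
    (hg : g ∈ Submodule.span ℂ (Set.range (@fourier (1:ℝ)))) :
    ∃ p₁ p₂ : Polynomial ℂ, ∀ x : AddCircle (1:ℝ),
      g x = p₁.eval ((AddCircle.toCircle x : Circle) : ℂ) +
        conj (p₂.eval ((AddCircle.toCircle x : Circle) : ℂ)) := by
  induction hg using Submodule.span_induction with
  | mem g hg =>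
    obtain ⟨n, rfl⟩ := hg
    rcases Int.eq_nat_or_neg n with ⟨m, rfl | rfl⟩
    · refine ⟨Polynomial.X ^ m, 0, fun x => ?_⟩
      rw [fourier_apply, AddCircle.toCircle_zsmul]
      simp
    · refine ⟨0, Polynomial.X ^ m, fun x => ?_⟩
      rw [fourier_neg, fourier_apply, AddCircle.toCircle_zsmul]
      simp
  | zero => exact ⟨0, 0, fun x => by simp⟩
  | add g g' _ _ h h' =>
    obtain ⟨p₁, p₂, hp⟩ := h
    obtain ⟨q₁, q₂, hq⟩ := h'
    refine ⟨p₁ + q₁, p₂ + q₂, fun x => ?_⟩
    rw [ContinuousMap.add_apply, hp, hq, Polynomial.eval_add, Polynomial.eval_add, map_add]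
    ring
  | smul c g _ h =>
    obtain ⟨p₁, p₂, hp⟩ := h
    refine ⟨Polynomial.C c * p₁, Polynomial.C (conj c) * p₂, fun x => ?_⟩
    rw [ContinuousMap.smul_apply, hp, smul_eq_mul, Polynomial.eval_mul, Polynomial.eval_mul,
      Polynomial.eval_C, Polynomial.eval_C, map_mul, Complex.conj_conj]
    ring

/-- real parts of polynomials approximate continuous functions on circles -/
theorem exists_poly {φ : ℂ → ℝ} {r : ℝ} (hr : 0 < r) (hφ : ContinuousOn φ (sphere 0 r)) :
    ∃ p : Polynomial ℂ, ∀ z : ℂ, ‖z‖ = r → φ z ≤ (p.eval z).re ∧ (p.eval z).re ≤ φ z + 1 := by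
  have hc : Continuous (fun x : AddCircle (1:ℝ) =>
      ((φ (r * ((AddCircle.toCircle x : Circle) : ℂ)) + 1 / 2 : ℝ) : ℂ)) := by
    refine Complex.continuous_ofReal.comp (Continuous.add ?_ continuous_const)
    refine hφ.comp_continuous ?_ ?_
    · exact continuous_const.mul ((by fun_prop : Continuous (fun c : Circle => (c:ℂ))).comp
        AddCircle.continuous_toCircle)
    · intro x
      rw [mem_sphere_zero_iff_norm, norm_mul, Circle.norm_coe, mul_one, Complex.norm_real,
        Real.norm_eq_abs, abs_of_pos hr]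
  let Ψ : C(AddCircle (1:ℝ), ℂ) := ⟨_, hc⟩
  have hΨ : Ψ ∈ (Submodule.span ℂ (Set.range (@fourier (1:ℝ)))).topologicalClosure := by
    rw [span_fourier_closure_eq_top]; trivial
  rw [← SetLike.mem_coe, Submodule.topologicalClosure_coe, Metric.mem_closure_iff] at hΨ
  obtain ⟨g, hg, hd⟩ := hΨ (1 / 2) (by norm_num)
  obtain ⟨p₁, p₂, hp⟩ := span_form g hg
  refine ⟨(p₁ + p₂).comp (Polynomial.C ((r:ℂ)⁻¹) * Polynomial.X), fun z hz => ?_⟩
  have hr0 : (r:ℂ) ≠ 0 := by exact_mod_cast hr.ne'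
  obtain ⟨x, hx⟩ := exists_toCircle (ζ := (r:ℂ)⁻¹ * z) (by
    rw [norm_mul, norm_inv, Complex.norm_real, Real.norm_eq_abs, abs_of_pos hr, hz,
      inv_mul_cancel₀ hr.ne'])
  have h1 : ‖Ψ x - g x‖ < 1 / 2 := by
    rw [← dist_eq_norm]
    exact lt_of_le_of_lt (ContinuousMap.dist_apply_le_dist x) hd
  have h2 : |(Ψ x - g x).re| < 1 / 2 := lt_of_le_of_lt (Complex.abs_re_le_norm _) h1
  have h3 : (Ψ x).re = φ z + 1 / 2 := by
    show (((φ (r * ((AddCircle.toCircle x : Circle) : ℂ)) + 1 / 2 : ℝ) : ℂ)).re = _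
    rw [Complex.ofReal_re, hx, mul_inv_cancel_left₀ hr0]
  have h4 : (g x).re = (((p₁ + p₂).comp (Polynomial.C ((r:ℂ)⁻¹) * Polynomial.X)).eval z).re := by
    rw [hp, hx, Polynomial.eval_comp, Polynomial.eval_mul, Polynomial.eval_C, Polynomial.eval_X,
      Polynomial.eval_add, Complex.add_re, Complex.add_re, Complex.conj_re]
  rw [Complex.sub_re, h3, h4, abs_lt] at h2
  constructor <;> linarith [h2.1, h2.2]

/-- the characteristic of a function on a circle -/
noncomputable def Tc (f : ℂ → ℂ) (r : ℝ) : ℝ :=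
  (2 * Real.pi)⁻¹ * ∫ θ in (0:ℝ)..(2 * Real.pi), Real.posLog ‖f ((r : ℂ) * Complex.exp ((θ : ℂ) * Complex.I))‖

theorem Tc_eq (f : ℂ → ℂ) (r : ℝ) : Tc f r = circleAverage (fun z => Real.posLog ‖f z‖) 0 r := by
  rw [circleAverage_def]
  simp [Tc, circleMap]

theorem posLog_cont {f : ℂ → ℂ} (hf : DifferentiableOn ℂ f (ball 0 1)) {r : ℝ} (h1 : r < 1) :
    ContinuousOn (fun z => Real.posLog ‖f z‖) (sphere 0 r) := by
  have h : ContinuousOn f (sphere 0 r) := hf.continuousOn.mono fun z hz => by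
    rw [mem_sphere_zero_iff_norm] at hz
    rw [mem_ball_zero_iff, hz]; exact h1
  exact Real.continuous_posLog.comp_continuousOn h.norm

theorem circInt {φ : ℂ → ℝ} {r : ℝ} (h0 : 0 ≤ r) (h : ContinuousOn φ (sphere 0 r)) :
    CircleIntegrable φ 0 r := by
  refine ContinuousOn.circleIntegrable' ?_
  rwa [abs_of_nonneg h0]

theorem mean_re {g : ℂ → ℂ} (hg : DifferentiableOn ℂ g (ball 0 1)) {r : ℝ} (h0 : 0 < r)
    (h1 : r < 1) : circleAverage (fun z => (g z).re) 0 r = (g 0).re := by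
  have hsub : closedBall (0:ℂ) r ⊆ ball 0 1 := closedBall_subset_ball h1
  have hd : DiffContOnCl ℂ g (ball 0 |r|) := by
    rw [abs_of_pos h0]
    refine ⟨hg.mono (ball_subset_closedBall.trans hsub), ?_⟩
    rw [closure_ball (0:ℂ) h0.ne']
    exact hg.continuousOn.mono hsub
  have hm := hd.circleAverage
  have hint : CircleIntegrable g 0 r := by
    refine ContinuousOn.circleIntegrable' ?_
    rw [abs_of_pos h0]
    exact hg.continuousOn.mono (sphere_subset_closedBall.trans hsub)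
  have := Complex.reCLM.circleAverage_comp_comm hint
  rw [hm] at this
  exact this

theorem re_cont {g : ℂ → ℂ} (hg : DifferentiableOn ℂ g (ball 0 1)) {r : ℝ} (h1 : r < 1) :
    ContinuousOn (fun z => (g z).re) (sphere 0 r) := by
  have h : ContinuousOn g (sphere 0 r) := hg.continuousOn.mono fun z hz => by
    rw [mem_sphere_zero_iff_norm] at hz
    rw [mem_ball_zero_iff, hz]; exact h1
  exact Complex.continuous_re.comp_continuousOn h

theorem log_norm_exp (w : ℂ) : Real.log ‖Complex.exp w‖ = w.re := by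
  rw [Complex.norm_exp, Real.log_exp]

/-- a unit dominating `f` on a disc, with small value at the origin -/
theorem exists_dom (f : HD) {r : ℝ} (h0 : 0 < r) (h1 : r < 1) :
    ∃ G : HD, IsU G ∧ (∀ z, ‖z‖ ≤ r → 1 ≤ ‖G.1 z‖ ∧ ‖f.1 z‖ ≤ ‖G.1 z‖) ∧
      Real.log ‖G.1 0‖ ≤ Tc f.1 r + 1 := by
  obtain ⟨p, hp⟩ := exists_poly h0 (posLog_cont (diff f) h1)
  have hd : DifferentiableOn ℂ (fun z => Complex.exp (p.eval z)) (ball 0 1) :=
    (p.differentiable.cexp).differentiableOn
  have hz0 : (0:ℂ) ∈ ball (0:ℂ) 1 := mem_ball_self one_pos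
  have hU : IsU (mkH _ hd) := by
    rw [isU_iff]
    intro z hz
    rw [mkH_apply _ hz]
    exact Complex.exp_ne_zero _
  refine ⟨mkH _ hd, hU, ?_, ?_⟩
  · intro z hz
    have hzb : z ∈ ball (0:ℂ) 1 := by rw [mem_ball_zero_iff]; linarith
    rw [mkH_apply _ hzb]
    have hpos : 0 < ‖Complex.exp (p.eval z)‖ := norm_pos_iff.2 (Complex.exp_ne_zero _)
    have key : ∀ w, ‖w‖ = r → 1 ≤ ‖Complex.exp (p.eval w)‖ ∧ ‖f.1 w‖ ≤ ‖Complex.exp (p.eval w)‖ := by
      intro w hw
      have h2 := (hp w hw).1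
      rw [Complex.norm_exp]
      have h3 : 0 ≤ Real.posLog ‖f.1 w‖ := Real.posLog_nonneg
      constructor
      · exact Real.one_le_exp (h3.trans h2)
      · rcases eq_or_lt_of_le (norm_nonneg (f.1 w)) with h4 | h4
        · rw [← h4]; exact (Real.exp_pos _).le
        · have h5 : Real.log ‖f.1 w‖ ≤ Real.posLog ‖f.1 w‖ := by
            rw [Real.posLog_apply]; exact le_max_right _ _
          rw [← Real.log_le_iff_le_exp h4]
          exact h5.trans h2
    have hdi : DifferentiableOn ℂ (fun z => (Complex.exp (p.eval z))⁻¹) (ball 0 1) :=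
      hd.inv fun w _ => Complex.exp_ne_zero _
    constructor
    · have := sphere_bound hdi h0 h1 (C := 1) (fun w hw => by
        rw [norm_inv]; exact inv_le_one_of_one_le₀ (key w hw).1) hz
      rw [norm_inv, inv_le_one₀ hpos] at this
      exact this
    · have := sphere_bound ((diff f).mul hdi) h0 h1 (C := 1) (fun w hw => by
        rw [Pi.mul_apply, norm_mul, norm_inv]
        have hw1 : 0 < ‖Complex.exp (p.eval w)‖ := norm_pos_iff.2 (Complex.exp_ne_zero _)
        rw [mul_inv_le_iff₀ hw1, one_mul]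
        exact (key w hw).2) hz
      rw [Pi.mul_apply, norm_mul, norm_inv, mul_inv_le_iff₀ hpos, one_mul] at this
      exact this
  · rw [mkH_apply _ hz0, log_norm_exp]
    have hpd : DifferentiableOn ℂ (fun z => p.eval z) (ball 0 1) := p.differentiable.differentiableOn
    have h2 := mean_re hpd h0 h1
    rw [← h2, Tc_eq]
    have h3 : circleAverage (fun z => (p.eval z).re) 0 r ≤
        circleAverage (fun z => Real.posLog ‖f.1 z‖ + 1) 0 r := by
      refine circleAverage_mono (circInt h0.le (re_cont hpd h1))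
        (circInt h0.le ((posLog_cont (diff f) h1).add continuousOn_const)) ?_
      intro z hz
      rw [abs_of_pos h0, mem_sphere_zero_iff_norm] at hz
      exact (hp z hz).2
    refine h3.trans (le_of_eq ?_)
    rw [circleAverage_fun_add (circInt h0.le (posLog_cont (diff f) h1))
      (circInt h0.le continuousOn_const), circleAverage_const]

/-- the characteristic is at most the logarithm of a dominating unit at the origin -/
theorem Tc_le {f : HD} {g : ℂ → ℂ} (hg : DifferentiableOn ℂ g (ball 0 1)) {r : ℝ} (h0 : 0 < r)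
    (h1 : r < 1) (hb : ∀ z, ‖z‖ = r → 0 ≤ (g z).re ∧ ‖f.1 z‖ ≤ Real.exp (g z).re) :
    Tc f.1 r ≤ (g 0).re := by
  rw [← mean_re hg h0 h1, Tc_eq]
  refine circleAverage_mono (circInt h0.le (posLog_cont (diff f) h1))
    (circInt h0.le (re_cont hg h1)) ?_
  intro z hz
  rw [abs_of_pos h0, mem_sphere_zero_iff_norm] at hz
  obtain ⟨h2, h3⟩ := hb z hz
  simp only [Real.posLog_apply]
  refine max_le h2 ?_
  rcases eq_or_lt_of_le (norm_nonneg (f.1 z)) with h4 | h4
  · rw [← h4, Real.log_zero]; exact h2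
  · exact (Real.log_le_iff_le_exp h4).2 h3

/-- Harnack inequality -/
theorem harnack {g : ℂ → ℂ} {r : ℝ} (hg : DifferentiableOn ℂ g (ball 0 r))
    (hre : ∀ z ∈ ball (0:ℂ) r, 0 ≤ (g z).re) {p : ℂ} (hp : ‖p‖ < r) :
    (g 0).re * (r - ‖p‖) ≤ (g p).re * (r + ‖p‖) := by
  have hr : 0 < r := lt_of_le_of_lt (norm_nonneg _) hp
  have hz0 : (0:ℂ) ∈ ball (0:ℂ) r := mem_ball_self hr
  have hpb : p ∈ ball (0:ℂ) r := by simpa using hp
  rcases eq_or_lt_of_le (hre 0 hz0) with h0 | h0
  · rw [← h0, zero_mul]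
    exact mul_nonneg (hre p hpb) (by positivity)
  · have hden : ∀ z ∈ ball (0:ℂ) r, g z + conj (g 0) ≠ 0 := by
      intro z hz h
      have := congrArg Complex.re h
      rw [Complex.add_re, Complex.conj_re, Complex.zero_re] at this
      have := hre z hz
      linarith
    have hd : DifferentiableOn ℂ (fun z => (g z - g 0) / (g z + conj (g 0))) (ball 0 r) :=
      (hg.sub_const _).div (hg.add_const _) hden
    have hsq : ∀ v A : ℂ, ‖v + conj A‖ ^ 2 - ‖v - A‖ ^ 2 = 4 * v.re * A.re := by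
      intro v A
      rw [← Complex.normSq_eq_norm_sq, ← Complex.normSq_eq_norm_sq, Complex.normSq_apply,
        Complex.normSq_apply]
      simp only [Complex.add_re, Complex.sub_re, Complex.add_im, Complex.sub_im, Complex.conj_re,
        Complex.conj_im]
      ring
    have hmaps : MapsTo (fun z => (g z - g 0) / (g z + conj (g 0))) (ball 0 r)
        (closedBall ((fun z => (g z - g 0) / (g z + conj (g 0))) 0) 1) := by
      intro z hz
      simp only [sub_self, zero_div, mem_closedBall_zero_iff]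
      rw [norm_div, div_le_one (norm_pos_iff.2 (hden z hz))]
      have h2 := hsq (g z) (g 0)
      have h3 : 0 ≤ 4 * (g z).re * (g 0).re := by
        have := hre z hz
        positivity
      exact abs_le_of_sq_le_sq' (by linarith) (norm_nonneg _) |>.2
    have hS := Complex.dist_le_div_mul_dist_of_mapsTo_ball hd hmaps hpb
    simp only [sub_self, zero_div, dist_zero_right] at hS
    rw [norm_div, div_le_iff₀ (norm_pos_iff.2 (hden p hpb))] at hS
    have hs0 : 0 ≤ (g p).re := hre p hpb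
    have e1 : ‖g p - g 0‖ ^ 2 = ((g p).re - (g 0).re) ^ 2 + ((g p).im - (g 0).im) ^ 2 := by
      rw [← Complex.normSq_eq_norm_sq, Complex.normSq_apply, Complex.sub_re, Complex.sub_im]; ring
    have e2 : ‖g p + conj (g 0)‖ ^ 2 = ((g p).re + (g 0).re) ^ 2 + ((g p).im - (g 0).im) ^ 2 := by
      rw [← Complex.normSq_eq_norm_sq, Complex.normSq_apply, Complex.add_re, Complex.add_im,
        Complex.conj_re, Complex.conj_im]; ring
    set κ := 1 / r * ‖p‖ with hκ
    have hκ0 : 0 ≤ κ := by positivity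
    have hκ1 : κ ≤ 1 := by
      rw [hκ, one_div, inv_mul_le_iff₀ hr, mul_one]; exact hp.le
    have h5 : ‖g p - g 0‖ ^ 2 ≤ κ ^ 2 * ‖g p + conj (g 0)‖ ^ 2 := by
      rw [← mul_pow]
      exact pow_le_pow_left₀ (norm_nonneg _) hS 2
    rw [e1, e2] at h5
    have h6 : ((g p).re - (g 0).re) ^ 2 ≤ (κ * ((g p).re + (g 0).re)) ^ 2 := by
      have h7 : 0 ≤ (1 - κ ^ 2) * ((g p).im - (g 0).im) ^ 2 :=
        mul_nonneg (by nlinarith) (sq_nonneg _)
      nlinarith
    have h8 := abs_le_of_sq_le_sq' h6 (mul_nonneg hκ0 (by linarith))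
    have h9 : (g 0).re - (g p).re ≤ κ * ((g p).re + (g 0).re) := by linarith [h8.1]
    have h10 : κ * r = ‖p‖ := by rw [hκ]; field_simp
    have h11 : ((g 0).re - (g p).re) * r ≤ κ * ((g p).re + (g 0).re) * r :=
      mul_le_mul_of_nonneg_right h9 hr.le
    have h12 : κ * ((g p).re + (g 0).re) * r = ‖p‖ * ((g p).re + (g 0).re) := by
      rw [← h10]; ring
    rw [h12] at h11
    linarith

/-- Schwarz-Pick type inequality -/
theorem schwarz_pick {w : ℂ → ℂ} (hw : DifferentiableOn ℂ w (ball 0 1))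
    (hb : ∀ z ∈ ball (0:ℂ) 1, ‖w z‖ < 1) {p : ℂ} (hp : ‖p‖ < 1) :
    (1 - ‖w 0‖) * (1 - ‖p‖) ≤ 2 * (1 - ‖w p‖) := by
  obtain ⟨β, hβ, hβ'⟩ : ∃ β : ℂ, ‖β‖ = 1 ∧ β * w p = (‖w p‖ : ℝ) := by
    by_cases h : w p = 0
    · exact ⟨1, norm_one, by simp [h]⟩
    · have hn : (‖w p‖ : ℂ) ≠ 0 := by simpa using h
      refine ⟨conj (w p) / ‖w p‖, ?_, ?_⟩
      · rw [norm_div, RCLike.norm_conj, Complex.norm_real, norm_norm, div_self (norm_ne_zero_iff.2 h)]
      · rw [div_mul_eq_mul_div, Complex.conj_mul', sq, mul_div_assoc, div_self hn, mul_one]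
  have hre : ∀ z ∈ ball (0:ℂ) 1, 0 ≤ (1 - β * w z).re := by
    intro z hz
    have h1 := Complex.re_le_norm (β * w z)
    rw [norm_mul, hβ, one_mul] at h1
    rw [Complex.sub_re, Complex.one_re]
    linarith [hb z hz]
  have hd : DifferentiableOn ℂ (fun z => 1 - β * w z) (ball 0 1) :=
    (differentiableOn_const _).sub (hw.const_mul β)
  have h := harnack hd hre hp
  simp only [Complex.sub_re, Complex.one_re] at h
  rw [hβ', Complex.ofReal_re] at h
  have h2 : 1 - ‖w 0‖ ≤ 1 - (β * w 0).re := by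
    have h1 := Complex.re_le_norm (β * w 0)
    rw [norm_mul, hβ, one_mul] at h1
    linarith
  have h3 : 0 < 1 - ‖w p‖ := by
    have := hb p (by simpa using hp)
    linarith
  have h4 : 0 ≤ 1 - ‖p‖ := by linarith
  calc (1 - ‖w 0‖) * (1 - ‖p‖) ≤ (1 - (β * w 0).re) * (1 - ‖p‖) :=
        mul_le_mul_of_nonneg_right h2 h4
    _ ≤ (1 - ‖w p‖) * (1 + ‖p‖) := h
    _ ≤ 2 * (1 - ‖w p‖) := by nlinarith

end Pool.Agent.Helper632.Adm
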