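import Mathlib
import Pool.Agent.Helper632.Adm.Ana

/-!
Characterisation of functions with slowly growing characteristic by ring-theoretic conditions.
-/

open Metric Set Complex Real

open scoped ComplexConjugate Topology

namespace Pool.Agent.Helper632.Adm

/-- scaling condition for the comparison function -/
def QC (w Q K : HD) : Prop := ∀ c c' e, Om w c → Const e → 2 * c' = 1 + c →
  Dv (w - c) (Q - e) → Dv (w - c') (Q - K * e)

/-- boundedness condition for the comparison function -/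
def QB (w Q B : HD) : Prop := ∀ c e, Const c → Const e → Le w (2 * c) 1 →
  Dv (w - c) (Q - e) → Le w e B

/-- `G` dominates `f` up to radius `ρ` -/
def Dom (w f ρ G : HD) : Prop := ∀ c e e', Const c → Const e → Const e' → Le w c ρ →
  Dv (w - c) (f - e) → Dv (w - c) (G - e') → Le w 1 e' ∧ Le w e e'

/-- `G` at the origin is at most `Q` at `ρ` -/
def Sml (w Q ρ G : HD) : Prop := ∀ e e', Const e → Const e' → Dv w (G - e) →
  Dv (w - ρ) (Q - e') → Le w e e'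

/-- ring-theoretic form of slow growth -/
def NA (f : HD) : Prop := ∃ w Q K B, Dsk w ∧ Const K ∧ Const B ∧ QC w Q K ∧ QB w Q B ∧
  ∀ ρ, Pos w ρ → ∃ G, IsU G ∧ Dom w f ρ G ∧ Sml w Q ρ G

theorem cst_two : cst 2 = 2 := by
  rw [← one_add_one_eq_two, map_add, map_one, one_add_one_eq_two]

theorem dsk_dom {w : HD} (h : Dsk w) (f : HD) {ρ : ℂ} (hρ : ‖ρ‖ < 1) (G : HD) :
    Dom w f (cst ρ) G ↔
    ∀ p ∈ ball (0:ℂ) 1, ‖w.1 p‖ ≤ ‖ρ‖ → 1 ≤ ‖G.1 p‖ ∧ ‖f.1 p‖ ≤ ‖G.1 p‖ := by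
  constructor
  · intro hd p hp hle
    have := hd (cst (w.1 p)) (cst (f.1 p)) (cst (G.1 p)) (const_cst _) (const_cst _) (const_cst _)
      ((dsk_le h _ _).2 hle) ((dsk_ev h hp rfl _ _).2 rfl) ((dsk_ev h hp rfl _ _).2 rfl)
    rw [← map_one cst, dsk_le h, dsk_le h, norm_one] at this
    exact this
  · intro hd c e e' hc he he' hle h1 h2
    obtain ⟨c, rfl⟩ := (const_iff _).1 hc
    obtain ⟨e, rfl⟩ := (const_iff _).1 he
    obtain ⟨e', rfl⟩ := (const_iff _).1 he'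
    rw [dsk_le h] at hle
    rw [← map_one cst, dsk_le h, dsk_le h, norm_one]
    obtain ⟨p, hp, hpc⟩ := dsk_surj h (lt_of_le_of_lt hle hρ)
    rw [dsk_ev h hp hpc] at h1 h2
    have := hd p hp (by rw [hpc]; exact hle)
    rw [h1, h2] at this
    exact this

theorem dsk_sml {w : HD} (h : Dsk w) (Q G : HD) {p₀ p : ℂ} (hp₀ : p₀ ∈ ball (0:ℂ) 1)
    (hp : p ∈ ball (0:ℂ) 1) (h0 : w.1 p₀ = 0) :
    Sml w Q (cst (w.1 p)) G ↔ ‖G.1 p₀‖ ≤ ‖Q.1 p‖ := by
  have key : ∀ f : HD, ∀ e : ℂ, Dv w (f - cst e) ↔ f.1 p₀ = e := by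
    intro f e
    have := dsk_ev h hp₀ h0 f e
    rwa [map_zero, sub_zero] at this
  constructor
  · intro hs
    have := hs (cst (G.1 p₀)) (cst (Q.1 p)) (const_cst _) (const_cst _) ((key _ _).2 rfl)
      ((dsk_ev h hp rfl _ _).2 rfl)
    rwa [dsk_le h] at this
  · intro hle e e' he he' h1 h2
    obtain ⟨e, rfl⟩ := (const_iff _).1 he
    obtain ⟨e', rfl⟩ := (const_iff _).1 he'
    rw [key] at h1
    rw [dsk_ev h hp rfl] at h2
    rw [dsk_le h, ← h1, ← h2]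
    exact hle

/-- growth of the comparison function -/
theorem Q_growth {w Q : HD} {k β : ℂ} (h : Dsk w) (hc : QC w Q (cst k)) (hb : QB w Q (cst β)) :
    ∀ n : ℕ, ∀ c : ℝ, 0 ≤ c → (1 / 2 : ℝ) ^ (n + 1) ≤ 1 - c → ∀ p ∈ ball (0:ℂ) 1, w.1 p = c →
      ‖Q.1 p‖ ≤ max 1 ‖β‖ * (max 1 ‖k‖) ^ n := by
  have base : ∀ c : ℝ, 0 ≤ c → c ≤ 1 / 2 → ∀ p ∈ ball (0:ℂ) 1, w.1 p = c →
      ‖Q.1 p‖ ≤ max 1 ‖β‖ := by
    intro c h0 h1 p hp hpc
    have := hb (cst c) (cst (Q.1 p)) (const_cst _) (const_cst _) (by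
      rw [← cst_two, ← map_mul, ← map_one cst, dsk_le h, norm_one, norm_mul, Complex.norm_real,
        Real.norm_eq_abs, abs_of_nonneg h0, Complex.norm_ofNat]
      linarith) ((dsk_ev h hp hpc _ _).2 rfl)
    rw [dsk_le h] at this
    exact this.trans (le_max_right _ _)
  intro n
  induction n with
  | zero =>
    intro c h0 h1 p hp hpc
    rw [pow_zero, mul_one]
    refine base c h0 ?_ p hp hpc
    rw [zero_add, pow_one] at h1
    linarith
  | succ n ih =>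
    intro c h0 h1 p hp hpc
    have hK : 1 ≤ max 1 ‖k‖ := le_max_left _ _
    have hB : 0 ≤ max 1 ‖β‖ := le_trans zero_le_one (le_max_left _ _)
    rcases le_total c (1 / 2) with h2 | h2
    · refine (base c h0 h2 p hp hpc).trans ?_
      exact le_mul_of_one_le_right hB (one_le_pow₀ hK)
    · have hlt : 2 * c - 1 < 1 := by
        have : (0:ℝ) < (1 / 2 : ℝ) ^ (n + 1 + 1) := by positivity
        linarith
      have h3 : (1 / 2 : ℝ) ^ (n + 1) ≤ 1 - (2 * c - 1) := by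
        rw [pow_succ] at h1
        linarith
      obtain ⟨p', hp', hpc'⟩ := dsk_surj h (c := ((2 * c - 1 : ℝ) : ℂ)) (by
        rw [Complex.norm_real, Real.norm_eq_abs, abs_of_nonneg (by linarith)]; exact hlt)
      have h4 := ih (2 * c - 1) (by linarith) h3 p' hp' hpc'
      have h5 := hc (cst ((2 * c - 1 : ℝ) : ℂ)) (cst c) (cst (Q.1 p'))
        ((dsk_om h _).2 (by
          rw [Complex.norm_real, Real.norm_eq_abs, abs_of_nonneg (by linarith)]; exact hlt))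
        (const_cst _) (by
          rw [← cst_two, ← map_one cst, ← map_mul, ← map_add]
          congr 1
          push_cast
          ring) ((dsk_ev h hp' hpc' _ _).2 rfl)
      rw [← map_mul, dsk_ev h hp hpc] at h5
      rw [h5, norm_mul]
      have h6 : ‖k‖ ≤ max 1 ‖k‖ := le_max_right _ _
      calc ‖k‖ * ‖Q.1 p'‖ ≤ max 1 ‖k‖ * (max 1 ‖β‖ * (max 1 ‖k‖) ^ n) :=
            mul_le_mul h6 h4 (norm_nonneg _) (by linarith)
        _ = _ := by rw [pow_succ]; ring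

theorem Q_log {w Q : HD} {k β : ℂ} (h : Dsk w) (hc : QC w Q (cst k)) (hb : QB w Q (cst β))
    {ρ : ℝ} (h0 : 0 ≤ ρ) (h1 : ρ < 1) {p : ℂ} (hp : p ∈ ball (0:ℂ) 1) (hpρ : w.1 p = ρ) :
    Real.log ‖Q.1 p‖ ≤ Real.log (max 1 ‖β‖) +
      Real.log (max 1 ‖k‖) / Real.log 2 * Real.log (1 - ρ)⁻¹ := by
  have hl2 : 0 < Real.log 2 := Real.log_pos (by norm_num)
  have hpos : 0 < 1 - ρ := by linarith
  have hL : 0 ≤ Real.log (1 - ρ)⁻¹ := Real.log_nonneg ((one_le_inv₀ hpos).2 (by linarith))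
  have hK : 1 ≤ max 1 ‖k‖ := le_max_left _ _
  have hB : 1 ≤ max 1 ‖β‖ := le_max_left _ _
  have hlK : 0 ≤ Real.log (max 1 ‖k‖) := Real.log_nonneg hK
  have hlB : 0 ≤ Real.log (max 1 ‖β‖) := Real.log_nonneg hB
  set n := ⌊Real.log (1 - ρ)⁻¹ / Real.log 2⌋₊ with hn
  have hn1 : (n : ℝ) ≤ Real.log (1 - ρ)⁻¹ / Real.log 2 := Nat.floor_le (by positivity)
  have hn2 : Real.log (1 - ρ)⁻¹ / Real.log 2 < n + 1 := Nat.lt_floor_add_one _
  have hn3 : (1 / 2 : ℝ) ^ (n + 1) ≤ 1 - ρ := by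
    rw [div_lt_iff₀ hl2] at hn2
    have h3 : Real.log (1 - ρ)⁻¹ < Real.log ((2:ℝ) ^ (n + 1)) := by
      rw [Real.log_pow]; push_cast; exact hn2
    have h4 : (1 - ρ)⁻¹ < (2:ℝ) ^ (n + 1) := (Real.log_lt_log_iff (by positivity) (by positivity)).1 h3
    rw [one_div, inv_pow]
    exact (inv_lt_of_inv_lt₀ hpos h4).le
  have h5 := Q_growth h hc hb n ρ h0 hn3 p hp hpρ
  rcases eq_or_lt_of_le (norm_nonneg (Q.1 p)) with h6 | h6
  · rw [← h6, Real.log_zero]
    positivity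
  · have h7 := Real.log_le_log h6 h5
    rw [Real.log_mul (by positivity) (by positivity), Real.log_pow] at h7
    refine h7.trans (add_le_add le_rfl ?_)
    calc (n:ℝ) * Real.log (max 1 ‖k‖) ≤ (Real.log (1 - ρ)⁻¹ / Real.log 2) * Real.log (max 1 ‖k‖) :=
          mul_le_mul_of_nonneg_right hn1 hlK
      _ = _ := by ring

theorem Tc_nonneg (f : ℂ → ℂ) (r : ℝ) : 0 ≤ Tc f r := by
  unfold Tc
  refine mul_nonneg (by positivity) ?_
  refine intervalIntegral.integral_nonneg (by positivity) fun θ _ => Real.posLog_nonneg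

theorem bigO_of_NA {f : HD} (h : NA f) :
    (fun r : ℝ => Tc f.1 r) =O[𝓝[<] (1:ℝ)] fun r : ℝ => Real.log (1 - r)⁻¹ := by
  obtain ⟨w, Q, K, B, hw, hK, hB, hc, hb, hG⟩ := h
  obtain ⟨k, rfl⟩ := (const_iff _).1 hK
  obtain ⟨β, rfl⟩ := (const_iff _).1 hB
  obtain ⟨p₀, hp₀, hw0⟩ := dsk_surj hw (c := 0) (by simp)
  have hp₀1 : ‖p₀‖ < 1 := by simpa using hp₀
  have hz0 : (0:ℂ) ∈ ball (0:ℂ) 1 := mem_ball_self one_pos
  have ha1 : ‖w.1 0‖ < 1 := dsk_maps hw hz0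
  set δ := (1 - ‖w.1 0‖) / 2 with hδ
  have hδ0 : 0 < δ := by rw [hδ]; linarith
  have hδ1 : δ ≤ 1 / 2 := by rw [hδ]; linarith [norm_nonneg (w.1 0)]
  set A := Real.log (max 1 ‖β‖) with hA
  set D := Real.log (max 1 ‖k‖) / Real.log 2 with hD
  have hA0 : 0 ≤ A := Real.log_nonneg (le_max_left _ _)
  have hD0 : 0 ≤ D := div_nonneg (Real.log_nonneg (le_max_left _ _)) (Real.log_nonneg (by norm_num))
  set M := 4 / (1 - ‖p₀‖) with hM
  have hM0 : 0 < M := by rw [hM]; exact div_pos (by norm_num) (by linarith)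
  have hlδ : 0 ≤ Real.log δ⁻¹ := Real.log_nonneg ((one_le_inv₀ hδ0).2 (by linarith))
  refine Asymptotics.IsBigO.of_bound (M * (A + D * Real.log δ⁻¹ + D)) ?_
  have hr1 : max ((1 + ‖p₀‖) / 2) (1 - Real.exp (-1)) < 1 := by
    refine max_lt (by linarith) ?_
    have := Real.exp_pos (-1)
    linarith
  filter_upwards [Ioo_mem_nhdsLT hr1] with r hr
  obtain ⟨hr2, hr3⟩ := hr
  have hr4 : (1 + ‖p₀‖) / 2 < r := (le_max_left _ _).trans_lt hr2
  have hr5 : 1 - Real.exp (-1) < r := (le_max_right _ _).trans_lt hr2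
  have hr0 : 0 < r := by linarith [norm_nonneg p₀]
  have hpos : 0 < 1 - r := by linarith
  have hL1 : 1 ≤ Real.log (1 - r)⁻¹ := by
    rw [Real.le_log_iff_exp_le (by positivity)]
    have h1 : 1 - r ≤ Real.exp (-1) := by linarith
    rw [Real.exp_neg] at h1
    rw [le_inv_comm₀ (Real.exp_pos _) hpos]
    exact h1
  set L := Real.log (1 - r)⁻¹ with hL
  rw [Real.norm_of_nonneg (Tc_nonneg _ _), Real.norm_of_nonneg (by linarith)]
  -- the radius
  set ρ : ℝ := 1 - δ * (1 - r) with hρ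
  have hρ0 : 0 ≤ ρ := by rw [hρ]; nlinarith
  have hρ1 : ρ < 1 := by
    have : 0 < δ * (1 - r) := mul_pos hδ0 hpos
    rw [hρ]; linarith
  have hρn : ‖(ρ:ℂ)‖ = ρ := by rw [Complex.norm_real, Real.norm_eq_abs, abs_of_nonneg hρ0]
  obtain ⟨G, hGU, hGD, hGS⟩ := hG (cst ρ) ((dsk_pos hw _).2 ⟨ρ, hρ0, hρ1, rfl⟩)
  rw [dsk_dom hw f (by rw [hρn]; exact hρ1)] at hGD
  obtain ⟨p, hp, hpρ⟩ := dsk_surj hw (c := (ρ:ℂ)) (by rw [hρn]; exact hρ1)
  rw [← hpρ, dsk_sml hw Q G hp₀ hp hw0] at hGS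
  obtain ⟨g, hg, hg'⟩ := exists_log (diff G) ((isU_iff G).1 hGU)
  have hin : ∀ z, ‖z‖ ≤ r → ‖w.1 z‖ ≤ ρ := by
    intro z hz
    have hz1 : ‖z‖ < 1 := lt_of_le_of_lt hz hr3
    have h1 := schwarz_pick (diff w) (fun z hz => dsk_maps hw hz) hz1
    have h2 : (1 - ‖w.1 0‖) * (1 - r) ≤ (1 - ‖w.1 0‖) * (1 - ‖z‖) :=
      mul_le_mul_of_nonneg_left (by linarith) (by linarith)
    rw [hρ, hδ]
    linarith
  have hre : ∀ z, ‖z‖ ≤ r → 0 ≤ (g z).re ∧ ‖f.1 z‖ ≤ Real.exp (g z).re := by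
    intro z hz
    have hzb : z ∈ ball (0:ℂ) 1 := by rw [mem_ball_zero_iff]; linarith
    obtain ⟨h1, h2⟩ := hGD z hzb (by rw [hρn]; exact hin z hz)
    rw [← hg' z hzb, Complex.norm_exp] at h1 h2
    exact ⟨Real.exp_le_exp.1 (by rw [Real.exp_zero]; exact h1), h2⟩
  have hT : Tc f.1 r ≤ (g 0).re := Tc_le hg hr0 hr3 fun z hz => hre z hz.le
  have hHar := harnack (hg.mono (ball_subset_ball hr3.le)) (p := p₀)
    (fun z hz => (hre z (by rw [mem_ball_zero_iff] at hz; exact hz.le)).1) (by linarith)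
  have hgp0 : 0 ≤ (g p₀).re := (hre p₀ (by linarith)).1
  have hg00 : 0 ≤ (g 0).re := (hre 0 (by rw [norm_zero]; exact hr0.le)).1
  have h6 : (g 0).re ≤ M * (g p₀).re := by
    rw [hM, div_mul_eq_mul_div, le_div_iff₀ (by linarith)]
    have h7 : (g 0).re * ((1 - ‖p₀‖) / 2) ≤ (g 0).re * (r - ‖p₀‖) :=
      mul_le_mul_of_nonneg_left (by linarith) hg00
    have h8 : (g p₀).re * (r + ‖p₀‖) ≤ (g p₀).re * 2 :=
      mul_le_mul_of_nonneg_left (by linarith) hgp0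
    linarith
  have h9 : (g p₀).re = Real.log ‖G.1 p₀‖ := by rw [← hg' p₀ hp₀, log_norm_exp]
  have hGp0 : 0 < ‖G.1 p₀‖ := norm_pos_iff.2 ((isU_iff G).1 hGU p₀ hp₀)
  have h10 : (g p₀).re ≤ Real.log ‖Q.1 p‖ := by
    rw [h9]; exact Real.log_le_log hGp0 hGS
  have h11 := Q_log hw hc hb hρ0 hρ1 hp hpρ
  have h12 : Real.log (1 - ρ)⁻¹ = Real.log δ⁻¹ + L := by
    rw [hL, ← Real.log_mul (by positivity) (by positivity), ← mul_inv]
    congr 2
    rw [hρ]; ring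
  rw [h12] at h11
  have h13 : (g p₀).re ≤ (A + D * Real.log δ⁻¹ + D) * L := by
    refine (h10.trans h11).trans ?_
    have h14 : A ≤ A * L := le_mul_of_one_le_right hA0 hL1
    have h15 : D * Real.log δ⁻¹ ≤ D * Real.log δ⁻¹ * L :=
      le_mul_of_one_le_right (mul_nonneg hD0 hlδ) hL1
    calc A + D * (Real.log δ⁻¹ + L) = A + D * Real.log δ⁻¹ + D * L := by ring
      _ ≤ A * L + D * Real.log δ⁻¹ * L + D * L := by linarith
      _ = _ := by ring
  calc Tc f.1 r ≤ (g 0).re := hT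
    _ ≤ M * (g p₀).re := h6
    _ ≤ M * ((A + D * Real.log δ⁻¹ + D) * L) := mul_le_mul_of_nonneg_left h13 hM0.le
    _ = _ := by ring

/-- the comparison function -/
theorem q_diff (A : ℝ) (N : ℕ) : DifferentiableOn ℂ (fun z : ℂ => (A:ℂ) * ((1 - z) ^ N)⁻¹) (ball 0 1) := by
  refine (DifferentiableOn.inv ?_ ?_).const_mul _
  · exact ((differentiableOn_const _).sub differentiableOn_id).pow N
  · intro z hz h
    have : (1 - z) = 0 := by
      by_contra h0
      exact pow_ne_zero N h0 h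
    rw [mem_ball_zero_iff] at hz
    rw [← sub_eq_zero.1 this, norm_one] at hz
    exact lt_irrefl _ hz

theorem NA_of_bigO {f : HD}
    (h : (fun r : ℝ => Tc f.1 r) =O[𝓝[<] (1:ℝ)] fun r : ℝ => Real.log (1 - r)⁻¹) : NA f := by
  obtain ⟨C, hC⟩ := h.bound
  obtain ⟨r₀, hr₀, hr₀'⟩ := (mem_nhdsLT_iff_exists_Ioo_subset (a := (1:ℝ))).1 hC
  have hr₀1 : r₀ < 1 := hr₀
  obtain ⟨N, hN⟩ := exists_nat_ge C
  set r₁ := max r₀ 0 with hr₁
  have hr₁0 : 0 ≤ r₁ := le_max_right _ _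
  have hr₁1 : r₁ < 1 := max_lt hr₀1 one_pos
  have hbd : ∀ s, r₁ < s → s < 1 → Tc f.1 s ≤ N * Real.log (1 - s)⁻¹ := by
    intro s hs hs1
    have h1 : ‖Tc f.1 s‖ ≤ C * ‖Real.log (1 - s)⁻¹‖ := hr₀' ⟨(le_max_left _ _).trans_lt hs, hs1⟩
    have hpos : 0 < 1 - s := by linarith
    have hL : 0 ≤ Real.log (1 - s)⁻¹ :=
      Real.log_nonneg ((one_le_inv₀ hpos).2 (by linarith))
    rw [Real.norm_of_nonneg (Tc_nonneg _ _), Real.norm_of_nonneg hL] at h1
    exact h1.trans (mul_le_mul_of_nonneg_right hN hL)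
  set a : ℝ := N * Real.log (2 / (1 - r₁)) + 1 with ha
  set A := Real.exp a with hA
  have hA0 : 0 < A := Real.exp_pos _
  have hQz : ∀ z ∈ ball (0:ℂ) 1, (mkH _ (q_diff A N)).1 z = (A:ℂ) * ((1 - z) ^ N)⁻¹ :=
    fun z hz => mkH_apply _ hz
  have hne : ∀ z ∈ ball (0:ℂ) 1, (1 - z) ≠ 0 := by
    intro z hz h0
    rw [mem_ball_zero_iff] at hz
    rw [← sub_eq_zero.1 h0, norm_one] at hz
    exact lt_irrefl _ hz
  have hX : ∀ z ∈ ball (0:ℂ) 1, X.1 z = z := fun z hz => X_apply hz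
  refine ⟨X, mkH _ (q_diff A N), cst ((2:ℂ) ^ N), cst ((A * 2 ^ N : ℝ) : ℂ), dsk_X, const_cst _,
    const_cst _, ?_, ?_, ?_⟩
  · intro c c' e hc he hcc hd
    obtain ⟨c, rfl⟩ := (const_iff _).1 hc.1
    obtain ⟨e, rfl⟩ := (const_iff _).1 he
    rw [om_X] at hc
    have hcb : c ∈ ball (0:ℂ) 1 := by simpa using hc
    have hc' : c' = cst ((1 + c) / 2) := by
      apply ext'
      intro z hz
      have := congrArg (fun f : HD => f.1 z) hcc
      simp only [mul_apply', two_apply', add_apply', one_apply', cst_apply] at this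
      rw [cst_apply, ← this]
      ring
    subst hc'
    have hcb' : (1 + c) / 2 ∈ ball (0:ℂ) 1 := by
      rw [mem_ball_zero_iff, norm_div, Complex.norm_ofNat, div_lt_one (by norm_num)]
      refine (norm_add_le _ _).trans_lt ?_
      rw [norm_one]
      linarith
    rw [dsk_ev dsk_X hcb (hX c hcb), hQz c hcb] at hd
    rw [← map_mul, dsk_ev dsk_X hcb' (hX _ hcb'), hQz _ hcb', ← hd]
    have e1 : 1 - (1 + c) / 2 = (1 - c) / 2 := by ring
    rw [e1, div_pow, inv_div]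
    ring
  · intro c e hc he hle hd
    obtain ⟨c, rfl⟩ := (const_iff _).1 hc
    obtain ⟨e, rfl⟩ := (const_iff _).1 he
    rw [← cst_two, ← map_mul, ← map_one cst, dsk_le dsk_X, norm_one, norm_mul,
      Complex.norm_ofNat] at hle
    have hcb : c ∈ ball (0:ℂ) 1 := by rw [mem_ball_zero_iff]; linarith
    rw [dsk_ev dsk_X hcb (hX c hcb), hQz c hcb] at hd
    rw [dsk_le dsk_X, ← hd, norm_mul, norm_inv, norm_pow, Complex.norm_real, Complex.norm_real,
      Real.norm_of_nonneg hA0.le, Real.norm_of_nonneg (by positivity)]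
    refine mul_le_mul_of_nonneg_left ?_ hA0.le
    have h1 : 1 / 2 ≤ ‖1 - c‖ := by
      have := norm_sub_norm_le (1:ℂ) c
      rw [norm_one] at this
      linarith
    have h2 : (1 / 2 : ℝ) ^ N ≤ ‖1 - c‖ ^ N := pow_le_pow_left₀ (by norm_num) h1 N
    have h3 := inv_anti₀ (by positivity) h2
    rwa [← inv_pow, ← inv_pow, one_div, inv_inv, inv_pow] at h3
  · intro ρ hρ
    obtain ⟨ρ, rfl⟩ := (const_iff _).1 hρ.1.1
    obtain ⟨r, hr0, hr1, rfl⟩ := (dsk_pos dsk_X _).1 hρ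
    have hrn : ‖(r:ℂ)‖ = r := by rw [Complex.norm_real, Real.norm_eq_abs, abs_of_nonneg hr0]
    have hm1 : max r r₁ < 1 := max_lt hr1 hr₁1
    have hm0 : 0 ≤ max r r₁ := hr0.trans (le_max_left _ _)
    set s := (1 + max r r₁) / 2 with hs
    have hs0 : 0 < s := by rw [hs]; linarith
    have hs1 : s < 1 := by rw [hs]; linarith
    have hsr : r ≤ s := by
      have := le_max_left r r₁
      rw [hs]; linarith
    have hsr₁ : r₁ < s := by
      have := le_max_right r r₁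
      rw [hs]; linarith
    obtain ⟨G, hGU, hGd, hG0⟩ := exists_dom f hs0 hs1
    refine ⟨G, hGU, ?_, ?_⟩
    · rw [dsk_dom dsk_X f (by rw [hrn]; exact hr1)]
      intro p hp hle
      rw [hX p hp, hrn] at hle
      exact hGd p (hle.trans hsr)
    · have hrb : (r:ℂ) ∈ ball (0:ℂ) 1 := by rw [mem_ball_zero_iff, hrn]; exact hr1
      have h0b : (0:ℂ) ∈ ball (0:ℂ) 1 := mem_ball_self one_pos
      have := dsk_sml dsk_X (mkH _ (q_diff A N)) G h0b hrb (hX 0 h0b)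
      rw [hX _ hrb] at this
      rw [this, hQz _ hrb]
      have h1r : 0 < 1 - r := by linarith
      have e1 : ‖(A:ℂ) * ((1 - (r:ℂ)) ^ N)⁻¹‖ = A * ((1 - r) ^ N)⁻¹ := by
        rw [norm_mul, norm_inv, norm_pow, show (1 - (r:ℂ)) = ((1 - r : ℝ) : ℂ) by push_cast; rfl,
          Complex.norm_real, Complex.norm_real, Real.norm_of_nonneg hA0.le,
          Real.norm_of_nonneg h1r.le]
      rw [e1]
      have hG0pos : 0 < ‖G.1 0‖ := norm_pos_iff.2 ((isU_iff G).1 hGU 0 h0b)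
      rw [← Real.log_le_log_iff hG0pos (by positivity), Real.log_mul (by positivity) (by positivity),
        hA, Real.log_exp, Real.log_inv, Real.log_pow]
      refine hG0.trans ?_
      have h5 := hbd s hsr₁ hs1
      have h1m : 0 < 1 - max r r₁ := by linarith
      have e2 : (1 - s)⁻¹ = 2 / (1 - max r r₁) := by
        rw [hs]
        have : 1 - (1 + max r r₁) / 2 = (1 - max r r₁) / 2 := by ring
        rw [this, inv_div]
      have h1r₁ : 0 < 1 - r₁ := by linarith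
      have h6 : (1 - r) * (1 - r₁) ≤ 1 - max r r₁ := by
        rcases le_total r r₁ with h | h
        · rw [max_eq_right h]; nlinarith
        · rw [max_eq_left h]; nlinarith
      have h7 : Real.log (1 - s)⁻¹ ≤ Real.log (2 / (1 - r₁)) - Real.log (1 - r) := by
        rw [← Real.log_div (by positivity) (by positivity), e2]
        refine Real.log_le_log (by positivity) ?_
        rw [div_div, mul_comm (1 - r₁)]
        exact div_le_div_of_nonneg_left (by norm_num) (by positivity) h6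
      have h8 : (N:ℝ) * Real.log (1 - s)⁻¹ ≤ N * (Real.log (2 / (1 - r₁)) - Real.log (1 - r)) :=
        mul_le_mul_of_nonneg_left h7 (Nat.cast_nonneg N)
      rw [ha]
      linarith

theorem NA_iff (f : HD) : NA f ↔
    (fun r : ℝ => Tc f.1 r) =O[𝓝[<] (1:ℝ)] fun r : ℝ => Real.log (1 - r)⁻¹ :=
  ⟨bigO_of_NA, NA_of_bigO⟩

end Pool.Agent.Helper632.Adm
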