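import Mathlib
import Pool.Agent.Helper632.Adm.Form
import Pool.Agent.Helper632.Adm.Main

/-!
First-order definability of the predicates used in the characterisation.
-/

open FirstOrder FirstOrder.Language FirstOrder.Ring

namespace Pool.Agent.Helper632.Adm

section

variable [CompatibleRing HD]

theorem dfU {t : (ℕ → HD) → HD} (ht : IsT t) : Df (fun v => IsU (t v)) := by
  unfold IsU
  exact Df.ex (Df.eq (ht.shift.mul (IsT.var 0)) IsT.one)

theorem dfDv {s t : (ℕ → HD) → HD} (hs : IsT s) (ht : IsT t) : Df (fun v => Dv (s v) (t v)) := by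
  unfold Dv
  exact Df.ex (Df.eq ht.shift (hs.shift.mul (IsT.var 0)))

theorem dfIrr {t : (ℕ → HD) → HD} (ht : IsT t) : Df (fun v => Irr (t v)) := by
  unfold Irr
  refine (dfU ht).not.and (Df.all (Df.all (Df.imp (Df.eq ht.shift.shift
    ((IsT.var 1).mul (IsT.var 0))) (Df.or (dfU (IsT.var 1)) (dfU (IsT.var 0))))))

theorem dfPhi {y b g : (ℕ → HD) → HD} (hy : IsT y) (hb : IsT b) (hg : IsT g) :
    Df (fun v => Phi (y v) (b v) (g v)) := by
  unfold Phi
  exact (dfU ((IsT.two.mul hy).sub IsT.one)).and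
    ((dfU ((IsT.two.mul hy).add IsT.one)).and (dfDv (hb.sub hy) hg))

theorem dfInt {t : (ℕ → HD) → HD} (ht : IsT t) : Df (fun v => IntP (t v)) := by
  unfold IntP
  refine Df.all (Df.all (Df.imp (dfPhi IsT.zero (IsT.var 1) (IsT.var 0)) (Df.imp
    (Df.all (Df.imp (dfPhi (IsT.var 0) (IsT.var 2) (IsT.var 1))
      (Df.and (dfPhi ((IsT.var 0).add IsT.one) (IsT.var 2) (IsT.var 1))
        (dfPhi ((IsT.var 0).sub IsT.one) (IsT.var 2) (IsT.var 1)))))
    (dfPhi ht.shift.shift (IsT.var 1) (IsT.var 0)))))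

theorem dfKP {t : (ℕ → HD) → HD} (ht : IsT t) : Df (fun v => KP (t v)) := by
  unfold KP
  refine Df.ex (Df.ex (Df.ex (Df.ex ?_)))
  exact (Df.eq ((IsT.var 3).mul (IsT.var 3)) IsT.one.neg).and ((dfInt (IsT.var 2)).and
    ((dfInt (IsT.var 1)).and ((dfInt (IsT.var 0)).and ((Df.eq (IsT.var 0) IsT.zero).not.and
      (Df.eq ((IsT.var 0).mul ht.shift.shift.shift.shift)
        ((IsT.var 2).add ((IsT.var 3).mul (IsT.var 1))))))))

theorem dfConst {t : (ℕ → HD) → HD} (ht : IsT t) : Df (fun v => Const (t v)) := by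
  unfold Const
  exact Df.all (Df.imp (dfKP (IsT.var 0)) (Df.or (Df.eq ht.shift (IsT.var 0))
    (dfU (ht.shift.sub (IsT.var 0)))))

theorem dfOm {w c : (ℕ → HD) → HD} (hw : IsT w) (hc : IsT c) : Df (fun v => Om (w v) (c v)) := by
  unfold Om
  exact (dfConst hc).and (dfU (hw.sub hc)).not

theorem dfDsk {w : (ℕ → HD) → HD} (hw : IsT w) : Df (fun v => Dsk (w v)) := by
  unfold Dsk
  refine Df.and ?_ (Df.and ?_ (Df.and ?_ (Df.and ?_ ?_)))
  · exact Df.all (Df.imp (dfConst (IsT.var 0)) (Df.or (dfU (hw.shift.sub (IsT.var 0)))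
      (dfIrr (hw.shift.sub (IsT.var 0)))))
  · exact dfOm hw IsT.zero
  · exact (dfOm hw IsT.one).not
  · exact Df.all (Df.imp (dfConst (IsT.var 0)) (Df.or
      (Df.all (Df.imp (dfOm hw.shift.shift (IsT.var 0))
        (dfOm hw.shift.shift ((IsT.var 1).mul (IsT.var 0)))))
      (Df.all (Df.imp (dfConst (IsT.var 0)) (Df.imp
        (dfOm hw.shift.shift ((IsT.var 1).mul (IsT.var 0)))
        (dfOm hw.shift.shift (IsT.var 0)))))))
  · exact Df.all (Df.imp (dfConst (IsT.var 0)) (Df.imp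
      (dfOm hw.shift ((IsT.var 0).mul (IsT.var 0))) (dfOm hw.shift (IsT.var 0))))

theorem dfLe {w c d : (ℕ → HD) → HD} (hw : IsT w) (hc : IsT c) (hd : IsT d) :
    Df (fun v => Le (w v) (c v) (d v)) := by
  unfold Le
  exact Df.all (Df.imp (dfConst (IsT.var 0)) (Df.imp
    (dfOm hw.shift ((IsT.var 0).mul hd.shift)) (dfOm hw.shift ((IsT.var 0).mul hc.shift))))

theorem dfPos {w ρ : (ℕ → HD) → HD} (hw : IsT w) (hρ : IsT ρ) :
    Df (fun v => Pos (w v) (ρ v)) := by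
  unfold Pos
  exact (dfOm hw hρ).and (Df.all (Df.imp (dfConst (IsT.var 0)) (Df.imp
    (dfLe hw.shift (IsT.var 0) hρ.shift)
    (dfLe hw.shift (IsT.one.sub hρ.shift) (IsT.one.sub (IsT.var 0))))))

theorem dfQC {w Q K : (ℕ → HD) → HD} (hw : IsT w) (hQ : IsT Q) (hK : IsT K) :
    Df (fun v => QC (w v) (Q v) (K v)) := by
  unfold QC
  refine Df.all (Df.all (Df.all ?_))
  exact Df.imp (dfOm hw.shift.shift.shift (IsT.var 2)) (Df.imp (dfConst (IsT.var 0))
    (Df.imp (Df.eq (IsT.two.mul (IsT.var 1)) (IsT.one.add (IsT.var 2)))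
    (Df.imp (dfDv (hw.shift.shift.shift.sub (IsT.var 2)) (hQ.shift.shift.shift.sub (IsT.var 0)))
    (dfDv (hw.shift.shift.shift.sub (IsT.var 1))
      (hQ.shift.shift.shift.sub (hK.shift.shift.shift.mul (IsT.var 0)))))))

theorem dfQB {w Q B : (ℕ → HD) → HD} (hw : IsT w) (hQ : IsT Q) (hB : IsT B) :
    Df (fun v => QB (w v) (Q v) (B v)) := by
  unfold QB
  refine Df.all (Df.all ?_)
  exact Df.imp (dfConst (IsT.var 1)) (Df.imp (dfConst (IsT.var 0))
    (Df.imp (dfLe hw.shift.shift (IsT.two.mul (IsT.var 1)) IsT.one)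
    (Df.imp (dfDv (hw.shift.shift.sub (IsT.var 1)) (hQ.shift.shift.sub (IsT.var 0)))
    (dfLe hw.shift.shift (IsT.var 0) hB.shift.shift))))

theorem dfDom {w f ρ G : (ℕ → HD) → HD} (hw : IsT w) (hf : IsT f) (hρ : IsT ρ) (hG : IsT G) :
    Df (fun v => Dom (w v) (f v) (ρ v) (G v)) := by
  unfold Dom
  refine Df.all (Df.all (Df.all ?_))
  exact Df.imp (dfConst (IsT.var 2)) (Df.imp (dfConst (IsT.var 1)) (Df.imp (dfConst (IsT.var 0))
    (Df.imp (dfLe hw.shift.shift.shift (IsT.var 2) hρ.shift.shift.shift)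
    (Df.imp (dfDv (hw.shift.shift.shift.sub (IsT.var 2)) (hf.shift.shift.shift.sub (IsT.var 1)))
    (Df.imp (dfDv (hw.shift.shift.shift.sub (IsT.var 2)) (hG.shift.shift.shift.sub (IsT.var 0)))
    (Df.and (dfLe hw.shift.shift.shift IsT.one (IsT.var 0))
      (dfLe hw.shift.shift.shift (IsT.var 1) (IsT.var 0))))))))

theorem dfSml {w Q ρ G : (ℕ → HD) → HD} (hw : IsT w) (hQ : IsT Q) (hρ : IsT ρ) (hG : IsT G) :
    Df (fun v => Sml (w v) (Q v) (ρ v) (G v)) := by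
  unfold Sml
  refine Df.all (Df.all ?_)
  exact Df.imp (dfConst (IsT.var 1)) (Df.imp (dfConst (IsT.var 0))
    (Df.imp (dfDv hw.shift.shift (hG.shift.shift.sub (IsT.var 1)))
    (Df.imp (dfDv (hw.shift.shift.sub hρ.shift.shift) (hQ.shift.shift.sub (IsT.var 0)))
    (dfLe hw.shift.shift (IsT.var 1) (IsT.var 0)))))

theorem dfNA {f : (ℕ → HD) → HD} (hf : IsT f) : Df (fun v => NA (f v)) := by
  unfold NA
  refine Df.ex (Df.ex (Df.ex (Df.ex ?_)))
  refine (dfDsk (IsT.var 3)).and ((dfConst (IsT.var 1)).and ((dfConst (IsT.var 0)).and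
    ((dfQC (IsT.var 3) (IsT.var 2) (IsT.var 1)).and ((dfQB (IsT.var 3) (IsT.var 2) (IsT.var 0)).and
      (Df.all (Df.imp (dfPos (IsT.var 4) (IsT.var 0)) (Df.ex ?_)))))))
  exact (dfU (IsT.var 0)).and ((dfDom (IsT.var 5) hf.shift.shift.shift.shift.shift.shift
    (IsT.var 1) (IsT.var 0)).and (dfSml (IsT.var 5) (IsT.var 4) (IsT.var 1) (IsT.var 0)))

theorem exists_formula : ∃ φ : Language.ring.Formula (Fin 1), ∀ f : HD,
    φ.Realize (fun _ => f) ↔ ¬ NA f :=
  Df.toFin (P := fun f => ¬ NA f) (dfNA (IsT.var 0)).not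

end

end Pool.Agent.Helper632.Adm
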